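import Pool.Agent.L5helper20.PD.Fin

/-!
Determinantal representations of the permanent: restriction to a principal block.
-/

set_option linter.unusedSectionVars false

namespace Pool.Agent.L5helper20.PD

open MvPolynomial Finset Module

variable {F : Type*} [Field F] {α : Type*} [Fintype α] [DecidableEq α]
  {J : Type*} [Fintype J] [DecidableEq J]

/-- restriction to a principal block, with ones on the remaining diagonal -/
noncomputable def rho (R : Finset α) :
    MvPolynomial (α × α) F →ₐ[F] MvPolynomial ({i // i ∈ R} × {i // i ∈ R}) F :=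
  aeval fun e => if h : e.1 ∈ R ∧ e.2 ∈ R then X (⟨e.1, h.1⟩, ⟨e.2, h.2⟩)
    else if e.1 = e.2 then 1 else 0

lemma rho_perm (R : Finset α) : rho R (permP α F) = permP {i // i ∈ R} F := by
  classical
  unfold permP Matrix.permanent
  rw [map_sum]
  have h0 : ∀ σ : Equiv.Perm α, rho R (∏ i, (Matrix.of fun i j =>
      (X (i, j) : MvPolynomial (α × α) F)) (σ i) i) =
      ∏ i, rho R (X (σ i, i) : MvPolynomial (α × α) F) := by
    intro σ
    rw [map_prod]
    rfl
  simp only [h0]
  have h1 : ∑ σ : Equiv.Perm α, ∏ i, rho R (X (σ i, i) : MvPolynomial (α × α) F) =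
      ∑ σ ∈ Finset.univ.filter (fun σ : Equiv.Perm α => ∀ a, a ∉ R → σ a = a),
        ∏ i, rho R (X (σ i, i) : MvPolynomial (α × α) F) := by
    rw [Finset.sum_filter_of_ne]
    intro σ _ hσ a ha
    by_contra hne
    apply hσ
    apply Finset.prod_eq_zero (Finset.mem_univ a)
    rw [rho, aeval_X, dif_neg (fun h => ha h.2), if_neg hne]
  rw [h1]
  symm
  refine Finset.sum_bij (fun τ _ => Equiv.Perm.ofSubtype τ) ?_ ?_ ?_ ?_
  · intro τ _
    rw [Finset.mem_filter]
    refine ⟨Finset.mem_univ _, fun a ha => Equiv.Perm.ofSubtype_apply_of_not_mem τ ha⟩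
  · intro τ _ τ' _ h
    exact Equiv.Perm.ofSubtype_injective h
  · intro σ hσ
    rw [Finset.mem_filter] at hσ
    refine ⟨(Equiv.Perm.subtypeEquivSubtypePerm (fun a => a ∈ R)).symm ⟨σ, hσ.2⟩,
      Finset.mem_univ _, ?_⟩
    exact congrArg Subtype.val
      ((Equiv.Perm.subtypeEquivSubtypePerm (fun a => a ∈ R)).apply_symm_apply ⟨σ, hσ.2⟩)
  · intro τ _
    rw [← Fintype.prod_subtype_mul_prod_subtype (fun a => a ∈ R)]
    have h2 : ∏ i : {x // ¬ (x ∈ R)}, rho R (X (Equiv.Perm.ofSubtype τ i, (i : α)) :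
        MvPolynomial (α × α) F) = 1 := by
      apply Finset.prod_eq_one
      intro i _
      rw [rho, aeval_X, dif_neg (fun h => i.2 h.2),
        if_pos (Equiv.Perm.ofSubtype_apply_of_not_mem τ i.2)]
    rw [h2, mul_one]
    refine Finset.prod_congr (by ext; simp) ?_
    intro i _
    have h3 : Equiv.Perm.ofSubtype τ (i : α) = (τ i : α) := Equiv.Perm.ofSubtype_apply_coe τ i
    rw [rho, aeval_X, h3, dif_pos ⟨(τ i).2, i.2⟩]
    rfl

lemma rho_scale (R : Finset α) (t s : α → F) (h : ∀ i, i ∉ R → t i * s i = 1)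
    (f : MvPolynomial (α × α) F) :
    rho R (scale t s f) =
      scale (fun i : {i // i ∈ R} => t i) (fun i : {i // i ∈ R} => s i) (rho R f) := by
  have : (rho R).comp (scale t s) =
      (scale (fun i : {i // i ∈ R} => t i) (fun i : {i // i ∈ R} => s i)).comp (rho R) := by
    apply MvPolynomial.algHom_ext
    intro e
    rw [AlgHom.comp_apply, AlgHom.comp_apply, scale, aeval_X, map_mul]
    have h1 : ∀ c : F, rho R (C c : MvPolynomial (α × α) F) = C c :=
      fun c => (rho R).commutes c
    rw [h1, rho, aeval_X]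
    by_cases h2 : e.1 ∈ R ∧ e.2 ∈ R
    · rw [dif_pos h2, scale, aeval_X]
    · rw [dif_neg h2]
      by_cases h3 : e.1 = e.2
      · rw [if_pos h3, map_one, mul_one]
        have h4 : e.1 ∉ R := fun h5 => h2 ⟨h5, h3 ▸ h5⟩
        rw [← h3, h _ h4, C_1]
      · rw [if_neg h3, map_zero, mul_zero]
  exact DFunLike.congr_fun this f

lemma rho_degree (R : Finset α) (M : Matrix J J (MvPolynomial (α × α) F))
    (hM : ∀ a b, (M a b).totalDegree ≤ 1) (a b : J) :
    (rho R (M a b)).totalDegree ≤ 1 := by
  obtain ⟨L, A, rfl⟩ := exists_affMat M hM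
  rw [affMat, map_add, map_sum]
  have h1 : ∀ c : F, rho R (C c : MvPolynomial (α × α) F) = C c :=
    fun c => (rho R).commutes c
  refine (totalDegree_add _ _).trans (max_le ?_ ?_)
  · rw [h1, totalDegree_C]; omega
  · refine totalDegree_finsetSum_le ?_
    intro e _
    rw [map_mul, h1]
    refine (totalDegree_mul _ _).trans ?_
    rw [totalDegree_C, add_zero, rho, aeval_X]
    split_ifs
    · rw [totalDegree_X]
    · rw [totalDegree_one]; omega
    · rw [totalDegree_zero]; omega

/-- the lower bound for a symmetry which is generic on a block -/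
theorem block_bound [IsAlgClosed F] (h2 : (2 : F) ≠ 0)
    (M : Matrix J J (MvPolynomial (α × α) F)) (hM : ∀ a b, (M a b).totalDegree ≤ 1)
    (hdet : M.det = permP α F) (R : Finset α) (hR : 3 ≤ R.card) (t s : α → F)
    (h1 : ∀ i, i ∉ R → t i * s i = 1)
    (hsep : ∀ S S' T T' : Finset α, S ⊆ R → S' ⊆ R → T ⊆ R → T' ⊆ R →
      S.card = S'.card → T.card = T'.card →
      ((∏ i ∈ S, t i) * ∏ j ∈ S', s j) ^ 2 = ((∏ i ∈ T, t i) * ∏ j ∈ T', s j) ^ 2 →
      S = T ∧ S' = T') (P Q : Matrix J J F)
    (h : M.map (scale t s) = P.map C * M * Q.map C ∨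
      M.map (scale t s) = P.map C * M.transpose * Q.map C) :
    2 ^ R.card - 1 ≤ Fintype.card J := by
  obtain ⟨L, A, hLA⟩ := exists_affMat (M.map (rho R)) (rho_degree R M hM)
  have hcard : Fintype.card {i // i ∈ R} = R.card := Fintype.card_coe R
  rw [← hcard]
  have hC : ∀ N : Matrix J J F, (N.map (C : F → MvPolynomial (α × α) F)).map (rho R) =
      N.map C := by
    intro N
    ext1 a b
    exact (rho R).commutes _
  have hm2 : ∀ N N' : Matrix J J (MvPolynomial (α × α) F), (N * N').map (rho R) =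
      N.map (rho R) * N'.map (rho R) := fun N N' => Matrix.map_mul
  have h0 : (M.map (rho R)).map (scale (fun i : {i // i ∈ R} => t i) (fun i : {i // i ∈ R} => s i)) =
      (M.map (scale t s)).map (rho R) := by
    ext1 a b
    exact (rho_scale R t s h1 _).symm
  refine rep_bound'' h2 (by rw [hcard]; exact hR) L A ?_ (fun i => t i) (fun i => s i) ?_ P Q ?_
  · rw [← hLA, ← rho_perm, ← hdet]
    exact (AlgHom.map_det (rho R) M).symm
  · intro S S' T T' hS hT h3
    have h4 : ∀ (u : α → F) (U : Finset {i // i ∈ R}),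
        ∏ i ∈ U, u i ^ 2 = (∏ i ∈ U.map (Function.Embedding.subtype _), u i) ^ 2 := by
      intro u U
      rw [Finset.prod_map, Finset.prod_pow]
      rfl
    have h5 : ∀ U : Finset {i // i ∈ R}, U.map (Function.Embedding.subtype _) ⊆ R := by
      intro U i hi
      rw [Finset.mem_map] at hi
      obtain ⟨j, _, rfl⟩ := hi
      exact j.2
    have h6 := hsep (S.map (Function.Embedding.subtype _)) (S'.map (Function.Embedding.subtype _))
      (T.map (Function.Embedding.subtype _)) (T'.map (Function.Embedding.subtype _))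
      (h5 _) (h5 _) (h5 _) (h5 _) (by rw [Finset.card_map, Finset.card_map, hS])
      (by rw [Finset.card_map, Finset.card_map, hT]) (by
        rw [mul_pow, mul_pow, ← h4, ← h4, ← h4, ← h4]
        exact h3)
    exact ⟨Finset.map_injective _ h6.1, Finset.map_injective _ h6.2⟩
  · rw [← hLA, h0]
    rcases h with h | h
    · left
      rw [h, hm2, hm2, hC, hC]
    · right
      rw [h, hm2, hm2, hC, hC]
      rfl

end Pool.Agent.L5helper20.PD
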