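import Pool.Agent.L5helper20.PD.Nil

/-!
The determinant of `Λ + ∑ y_i L_i` modulo the squares of the `y_i`, for `Λ` a diagonal matrix with
entries `0` and `1`, by elimination.
-/

set_option linter.unusedSectionVars false

namespace Pool.Agent.L5helper20.PD

open MvPolynomial

variable {ι : Type*} [Fintype ι] [DecidableEq ι] {F : Type*} [Field F]
variable {I : Type*} [Fintype I] [DecidableEq I]

/-- the matrix `Λ + ∑ y_i L_i` over the algebra `F[y] / (y_i ^ 2)` -/
noncomputable def Mat (p : I → Prop) [DecidablePred p] (L : ι → Matrix I I F) :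
    Matrix I I (Nil ι F) := fun a b =>
  algebraMap F (Nil ι F) (if a = b ∧ p a then 1 else 0) +
    ∑ i, eps i * algebraMap F (Nil ι F) (L i a b)

/-- the solution of the linear system, coefficient at the square-free monomial `S` -/
noncomputable def vec (p : I → Prop) [DecidablePred p] (L : ι → Matrix I I F) (b : I)
    (S : Finset ι) : I → F :=
  if S = ∅ then Pi.single b 1 else fun a =>
    if p a then - ∑ i ∈ S.attach, ∑ c, L i.1 a c * vec p L b (S.erase i.1) c else 0
termination_by S.card
decreasing_by exact Finset.card_erase_lt_of_mem i.2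

/-- the remainder -/
noncomputable def rem (p : I → Prop) [DecidablePred p] (L : ι → Matrix I I F) (b : I)
    (S : Finset ι) (a : I) : F :=
  ∑ i ∈ S, ∑ c, L i a c * vec p L b (S.erase i) c

variable (p : I → Prop) [DecidablePred p] (L : ι → Matrix I I F)

lemma vec_empty (b : I) : vec p L b ∅ = Pi.single b 1 := by
  rw [vec]; simp

lemma vec_of_ne {b : I} {S : Finset ι} (hS : S ≠ ∅) (a : I) :
    vec p L b S a = if p a then - rem p L b S a else 0 := by
  rw [vec, if_neg hS]
  simp only [rem]
  congr 2
  exact Finset.sum_attach S (fun i => ∑ c, L i a c * vec p L b (S.erase i) c)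

lemma rem_empty (b a : I) : rem p L b ∅ a = 0 := by simp [rem]

lemma rem_singleton (b a : I) (i : ι) : rem p L b {i} a = L i a b := by
  simp [rem, vec_empty, Pi.single_apply]

/-- the elimination matrix -/
noncomputable def Tm : Matrix I I (Nil ι F) := fun a b =>
  if p b then (if a = b then 1 else 0) else ∑ S, algebraMap F (Nil ι F) (vec p L b S a) * epsS S

lemma eps_sum (i : ι) (f : Finset ι → F) :
    ∑ S, eps i * (algebraMap F (Nil ι F) (f S) * epsS S) =
      ∑ S, if i ∈ S then algebraMap F (Nil ι F) (f (S.erase i)) * epsS S else 0 := by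
  rw [← Finset.sum_filter]
  have h1 : ∑ S, eps i * (algebraMap F (Nil ι F) (f S) * epsS S) =
      ∑ S with i ∉ S, algebraMap F (Nil ι F) (f S) * epsS (insert i S) := by
    rw [Finset.sum_filter]
    apply Finset.sum_congr rfl
    intro S _
    by_cases h : i ∈ S
    · rw [if_neg (by simpa using h)]
      rw [mul_left_comm, eps_mul_epsS h, mul_zero]
    · rw [if_pos h, mul_left_comm, epsS_insert h]
  rw [h1]
  refine Finset.sum_bij' (fun S _ => insert i S) (fun S _ => S.erase i) ?_ ?_ ?_ ?_ ?_
  · intro S hS; simp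
  · intro S hS; simp
  · intro S hS
    rw [Finset.erase_insert]
    simpa using hS
  · intro S hS
    rw [Finset.insert_erase]
    simpa using hS
  · intro S hS
    rw [Finset.erase_insert]
    simpa using hS

lemma mul_Tm_of_not {a b : I} (hb : ¬ p b) :
    (Mat p L * Tm p L) a b =
      if p a then 0 else ∑ S, algebraMap F (Nil ι F) (rem p L b S a) * epsS S := by
  rw [Matrix.mul_apply]
  simp only [Mat, Tm, if_neg hb, add_mul, Finset.sum_add_distrib]
  have h1 : ∑ c, algebraMap F (Nil ι F) (if a = c ∧ p a then 1 else 0) *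
      ∑ S, algebraMap F (Nil ι F) (vec p L b S c) * epsS S =
      if p a then ∑ S, algebraMap F (Nil ι F) (vec p L b S a) * epsS S else 0 := by
    rw [Finset.sum_eq_single a]
    · by_cases h : p a <;> simp [h]
    · intro c _ hc
      rw [if_neg (fun h => hc h.1.symm), map_zero, zero_mul]
    · simp
  have h2 : ∑ c, (∑ i, eps i * algebraMap F (Nil ι F) (L i a c)) *
      ∑ S, algebraMap F (Nil ι F) (vec p L b S c) * epsS S =
      ∑ S, algebraMap F (Nil ι F) (rem p L b S a) * epsS S := by
    calc _ = ∑ i, ∑ S, eps i * (algebraMap F (Nil ι F) (∑ c, L i a c * vec p L b S c) *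
          epsS S) := by
          have e1 : ∀ c, (∑ i, eps i * algebraMap F (Nil ι F) (L i a c)) *
              ∑ S, algebraMap F (Nil ι F) (vec p L b S c) * epsS S =
              ∑ i, ∑ S, eps i * (algebraMap F (Nil ι F) (L i a c * vec p L b S c) * epsS S) := by
            intro c
            rw [Finset.sum_mul]
            apply Finset.sum_congr rfl
            intro i _
            rw [Finset.mul_sum]
            apply Finset.sum_congr rfl
            intro S _
            rw [map_mul]; ring
          simp only [e1]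
          rw [Finset.sum_comm]
          apply Finset.sum_congr rfl
          intro i _
          rw [Finset.sum_comm]
          apply Finset.sum_congr rfl
          intro S _
          rw [map_sum, Finset.sum_mul, Finset.mul_sum]
      _ = ∑ i, ∑ S, if i ∈ S then
            algebraMap F (Nil ι F) (∑ c, L i a c * vec p L b (S.erase i) c) * epsS S else 0 := by
          apply Finset.sum_congr rfl
          intro i _
          exact eps_sum i (fun S => ∑ c, L i a c * vec p L b S c)
      _ = _ := by
          rw [Finset.sum_comm]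
          apply Finset.sum_congr rfl
          intro S _
          rw [rem, map_sum, Finset.sum_mul, ← Finset.sum_filter]
          apply Finset.sum_congr _ (fun _ _ => rfl)
          ext i; simp
  rw [h1, h2]
  by_cases ha : p a
  · rw [if_pos ha, if_pos ha, ← Finset.sum_add_distrib]
    apply Finset.sum_eq_zero
    intro S _
    by_cases hS : S = ∅
    · subst hS
      rw [vec_empty, rem_empty, Pi.single_apply, if_neg (fun h : a = b => hb (h ▸ ha))]
      simp
    · rw [vec_of_ne p L hS, if_pos ha, map_neg]; ring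
  · rw [if_neg ha, if_neg ha, zero_add]

lemma mul_Tm_of_pos {a b : I} (hb : p b) : (Mat p L * Tm p L) a b = Mat p L a b := by
  rw [Matrix.mul_apply]
  simp [Tm, if_pos hb]

lemma det_Tm : (Tm p L).det = 1 := by
  have h0 : ∀ a b, ¬ p a → p b → Tm p L a b = 0 := by
    intro a b ha hb
    simp only [Tm, if_pos hb]
    rw [if_neg (fun h : a = b => ha (h ▸ hb))]
  rw [Matrix.twoBlockTriangular_det (Tm p L) p (fun i hi j hj => h0 i j hi hj)]
  have h1 : Matrix.toSquareBlockProp (Tm p L) p = 1 := by
    ext a b
    change Tm p L a.1 b.1 = _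
    simp only [Tm, if_pos b.2, Matrix.one_apply, Subtype.ext_iff]
  have h2 : Matrix.toSquareBlockProp (Tm p L) (fun i => ¬ p i) = 1 := by
    ext a b
    change Tm p L a.1 b.1 = _
    simp only [Tm, if_neg b.2, Matrix.one_apply]
    rw [Finset.sum_eq_single ∅]
    · rw [vec_empty, Pi.single_apply, epsS_empty, mul_one]
      by_cases h : a = b
      · simp [h]
      · rw [if_neg h, if_neg (fun h' => h (Subtype.ext h')), map_zero]
    · intro S _ hS
      rw [vec_of_ne p L hS, if_neg a.2, map_zero, zero_mul]
    · simp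
  rw [h1, h2, Matrix.det_one, Matrix.det_one, one_mul]

/-- the remaining block -/
noncomputable def Rm : Matrix {a // ¬ p a} {a // ¬ p a} (Nil ι F) := fun a b =>
  ∑ S, algebraMap F (Nil ι F) (rem p L b S a) * epsS S

lemma det_Rm {γ : F} (h : (Mat p L).det = algebraMap F (Nil ι F) γ * epsS Finset.univ) :
    (Rm p L).det = algebraMap F (Nil ι F) γ * epsS Finset.univ := by
  have h1 : (Mat p L * Tm p L).det = algebraMap F (Nil ι F) γ * epsS Finset.univ := by
    rw [Matrix.det_mul, det_Tm, mul_one, h]
  rw [Matrix.twoBlockTriangular_det' (Mat p L * Tm p L) p (fun i hi j hj => by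
    rw [mul_Tm_of_not p L hj, if_pos hi])] at h1
  have h2 : Matrix.toSquareBlockProp (Mat p L * Tm p L) (fun i => ¬ p i) = Rm p L := by
    ext a b
    change (Mat p L * Tm p L) a.1 b.1 = _
    rw [mul_Tm_of_not p L b.2, if_neg a.2]
    rfl
  rw [h2] at h1
  refine eq_of_unit_mul ?_ h1
  rw [RingHom.map_det]
  have h3 : aug.mapMatrix (Matrix.toSquareBlockProp (Mat p L * Tm p L) p) = 1 := by
    ext a b
    change aug ((Mat p L * Tm p L) a.1 b.1) = _
    rw [mul_Tm_of_pos p L b.2, Mat, map_add, aug_algebraMap, map_sum]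
    simp only [map_mul, aug_eps, zero_mul, Finset.sum_const_zero, add_zero, Matrix.one_apply,
      a.2, and_true, Subtype.ext_iff]
  rw [h3, Matrix.det_one]

/-- a partition of `ι` indexed by `κ` (with possibly empty members) -/
def IsPart {κ : Type*} (φ : κ → Finset ι) : Prop :=
  (∀ a b, a ≠ b → Disjoint (φ a) (φ b)) ∧ ∀ i, ∃ a, i ∈ φ a

open Classical in
/-- the coefficient of the determinant -/
lemma coef_det {γ : F} (h : (Mat p L).det = algebraMap F (Nil ι F) γ * epsS Finset.univ) :
    γ = ∑ π : Equiv.Perm {a // ¬ p a}, ∑ φ : {a // ¬ p a} → Finset ι,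
      if IsPart φ then (Equiv.Perm.sign π : ℤ) * ∏ b : {a // ¬ p a}, rem p L b (φ b) (π b) else 0 := by
  have h1 := congrArg (coef Finset.univ) (det_Rm p L h)
  have hs : ∀ (c : F) (x : Nil ι F), coef Finset.univ (algebraMap F (Nil ι F) c * x) =
      c * coef Finset.univ x := by
    intro c x
    rw [← Algebra.smul_def, map_smul, smul_eq_mul]
  rw [hs, coef_epsS, if_pos rfl, mul_one] at h1
  rw [← h1, Matrix.det_apply', map_sum]
  apply Finset.sum_congr rfl
  intro π _
  simp only [Rm]
  rw [Finset.prod_univ_sum, Fintype.piFinset_univ, Finset.mul_sum, map_sum]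
  apply Finset.sum_congr rfl
  intro φ _
  rw [Finset.prod_mul_distrib, ← map_prod, ← mul_assoc]
  have h3 : (((Equiv.Perm.sign π : ℤ) : Nil ι F)) * algebraMap F (Nil ι F)
      (∏ b : {a // ¬ p a}, rem p L (b : I) (φ b) (π b)) =
      algebraMap F (Nil ι F) ((Equiv.Perm.sign π : ℤ) * ∏ b : {a // ¬ p a}, rem p L b (φ b) (π b)) := by
    rw [map_mul, map_intCast]
  rw [h3, hs, prod_epsS]
  by_cases hφ : IsPart φ
  · rw [if_pos hφ, if_pos, coef_epsS, if_pos, mul_one]
    · ext i
      obtain ⟨a, ha⟩ := hφ.2 i
      simp only [Finset.mem_biUnion, Finset.mem_univ, true_and, iff_true]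
      exact ⟨a, ha⟩
    · intro a _ b _ hab
      exact hφ.1 a b hab
  · rw [if_neg hφ]
    by_cases h4 : ((Finset.univ : Finset {a // ¬ p a}) : Set _).PairwiseDisjoint φ
    · rw [if_pos h4, coef_epsS, if_neg, mul_zero]
      intro h5
      apply hφ
      refine ⟨fun a b hab => h4 (by simp) (by simp) hab, fun i => ?_⟩
      have : i ∈ Finset.univ.biUnion φ := by rw [h5]; simp
      simpa using this
    · rw [if_neg h4, map_zero, mul_zero]

/-- a nonzero coefficient gives a nonzero term -/
lemma exists_term {γ : F} (hγ : γ ≠ 0)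
    (h : (Mat p L).det = algebraMap F (Nil ι F) γ * epsS Finset.univ) :
    ∃ (π : Equiv.Perm {a // ¬ p a}) (φ : {a // ¬ p a} → Finset ι), IsPart φ ∧
      ∀ b : {a // ¬ p a}, rem p L b (φ b) (π b) ≠ 0 := by
  classical
  rw [coef_det p L h] at hγ
  obtain ⟨π, _, hπ⟩ := Finset.exists_ne_zero_of_sum_ne_zero hγ
  obtain ⟨φ, _, hφ⟩ := Finset.exists_ne_zero_of_sum_ne_zero hπ
  by_cases h1 : IsPart φ
  · rw [if_pos h1] at hφ
    exact ⟨π, φ, h1, fun b => (Finset.prod_ne_zero_iff.1 (right_ne_zero_of_mul hφ)) b
      (Finset.mem_univ b)⟩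
  · rw [if_neg h1] at hφ
    exact absurd rfl hφ

end Pool.Agent.L5helper20.PD
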