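import Mathlib

/-!
Counting permutations with prescribed images of the members of a partition, and an inequality for
factorials.
-/

namespace Pool.Agent.L5helper20.PD

open Finset Nat

/-- permutations whose quotients preserve a labelling -/
lemma card_le_of_label {α κ : Type*} [Fintype α] [DecidableEq α] [Fintype κ] [DecidableEq κ]
    (f : α → κ) (A : Finset (Equiv.Perm α))
    (hA : ∀ σ ∈ A, ∀ τ ∈ A, ∀ x, f (σ⁻¹ (τ x)) = f x) :
    A.card ≤ ∏ j, (Fintype.card {a // f a = j})! := by
  rcases A.eq_empty_or_nonempty with h | ⟨σ, hσ⟩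
  · rw [h, Finset.card_empty]; exact Nat.zero_le _
  · rw [← DomMulAct.stabilizer_card f, ← Fintype.card_coe A]
    refine Fintype.card_le_of_injective
      (fun τ : A => (⟨σ⁻¹ * τ.1, ?_⟩ : {g : Equiv.Perm α // f ∘ g = f})) ?_
    · ext x
      exact hA σ hσ τ.1 τ.2 x
    · intro τ τ' h
      have := congrArg Subtype.val h
      simp only [mul_right_inj] at this
      exact Subtype.ext this

/-- `(l + 1)! (s + 1)! ≤ (l + s + 1)!` -/
lemma fact_mul_le (l s : ℕ) : (l + 1)! * (s + 1)! ≤ (l + s + 1)! := by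
  induction l with
  | zero => simp
  | succ l ih =>
    calc (l + 1 + 1)! * (s + 1)! = (l + 1 + 1) * ((l + 1)! * (s + 1)!) := by
          rw [Nat.factorial_succ (l + 1)]; ring
      _ ≤ (l + s + 1 + 1) * (l + s + 1)! := Nat.mul_le_mul (by omega) ih
      _ = (l + 1 + s + 1)! := by
          rw [← Nat.factorial_succ]; congr 1; omega

lemma prod_fact_le {κ : Type*} (s : Finset κ) (k : κ → ℕ) (hk : ∀ b ∈ s, 1 ≤ k b) :
    ∏ b ∈ s, (k b)! ≤ (∑ b ∈ s, (k b - 1) + 1)! := by
  classical
  induction s using Finset.induction_on with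
  | empty => simp
  | insert a s ha ih =>
    rw [Finset.prod_insert ha, Finset.sum_insert ha]
    have h1 := ih (fun b hb => hk b (Finset.mem_insert_of_mem hb))
    have h2 := hk a (Finset.mem_insert_self a s)
    obtain ⟨l, hl⟩ : ∃ l, k a = l + 1 := ⟨k a - 1, by omega⟩
    calc (k a)! * ∏ b ∈ s, (k b)! ≤ (l + 1)! * (∑ b ∈ s, (k b - 1) + 1)! := by
          rw [hl]; exact Nat.mul_le_mul_left _ h1
      _ ≤ (l + ∑ b ∈ s, (k b - 1) + 1)! := fact_mul_le l _
      _ = _ := by congr 2; omega

/-- `c! (m - c + 1)! < m!` for `2 ≤ c < m` -/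
lemma fact_lt {c d : ℕ} (hc : 2 ≤ c) (hd : 1 ≤ d) : c ! * (d + 1)! < (c + d)! := by
  induction d, hd using Nat.le_induction with
  | base =>
    have h1 : (c + 1)! = (c + 1) * c ! := Nat.factorial_succ c
    have h2 : 0 < c ! := Nat.factorial_pos c
    have h3 : (1 + 1)! = 2 := rfl
    rw [h1, h3]
    nlinarith
  | succ d hd ih =>
    calc c ! * (d + 1 + 1)! = (d + 1 + 1) * (c ! * (d + 1)!) := by
          rw [Nat.factorial_succ (d + 1)]; ring
      _ < (d + 1 + 1) * (c + d)! := Nat.mul_lt_mul_of_pos_left ih (by omega)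
      _ ≤ (c + d + 1) * (c + d)! := Nat.mul_le_mul_right _ (by omega)
      _ = (c + (d + 1))! := by rw [← Nat.factorial_succ]; rfl

/-- a function with alternating signs on the permutations of at least three elements -/
lemma no_sign_table {κ : Type*} [Fintype κ] [DecidableEq κ] {F : Type*} [Field F]
    (h2 : (2 : F) ≠ 0) (hκ : 3 ≤ Fintype.card κ) (q : κ → κ → F) {γ : F} (hγ : γ ≠ 0)
    (h : ∀ π : Equiv.Perm κ, γ = (Equiv.Perm.sign π : ℤ) * ∏ b, q (π b) b) : False := by
  obtain ⟨x, y, z, hxy, hxz, hyz⟩ := Fintype.two_lt_card_iff.1 (by omega : 2 < Fintype.card κ)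
  set g : Equiv.Perm κ → F := fun π => ∏ b, q (π b) b with hg
  have e1 : γ = g 1 := by simpa [hg] using h 1
  have e2 : γ = g (Equiv.swap x y * Equiv.swap y z) := by
    have := h (Equiv.swap x y * Equiv.swap y z)
    rw [Equiv.Perm.sign_mul, Equiv.Perm.sign_swap hxy, Equiv.Perm.sign_swap hyz] at this
    simpa [hg] using this
  have e3 : γ = g (Equiv.swap y z * Equiv.swap x y) := by
    have := h (Equiv.swap y z * Equiv.swap x y)
    rw [Equiv.Perm.sign_mul, Equiv.Perm.sign_swap hxy, Equiv.Perm.sign_swap hyz] at this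
    simpa [hg] using this
  have f1 : γ = - g (Equiv.swap x y) := by
    have := h (Equiv.swap x y)
    rw [Equiv.Perm.sign_swap hxy] at this
    simpa using this
  have f2 : γ = - g (Equiv.swap y z) := by
    have := h (Equiv.swap y z)
    rw [Equiv.Perm.sign_swap hyz] at this
    simpa using this
  have f3 : γ = - g (Equiv.swap x z) := by
    have := h (Equiv.swap x z)
    rw [Equiv.Perm.sign_swap hxz] at this
    simpa using this
  have key : g 1 * g (Equiv.swap x y * Equiv.swap y z) * g (Equiv.swap y z * Equiv.swap x y) =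
      g (Equiv.swap x y) * g (Equiv.swap y z) * g (Equiv.swap x z) := by
    simp only [hg]
    rw [← Finset.prod_mul_distrib, ← Finset.prod_mul_distrib, ← Finset.prod_mul_distrib,
      ← Finset.prod_mul_distrib]
    apply Finset.prod_congr rfl
    intro b _
    rw [Equiv.Perm.mul_apply, Equiv.Perm.mul_apply, Equiv.Perm.one_apply]
    by_cases hx : b = x
    · subst hx
      rw [Equiv.swap_apply_of_ne_of_ne hxy hxz, Equiv.swap_apply_left, Equiv.swap_apply_left,
        Equiv.swap_apply_left]
      ring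
    · by_cases hy : b = y
      · subst hy
        rw [Equiv.swap_apply_left, Equiv.swap_apply_of_ne_of_ne hxz.symm hyz.symm,
          Equiv.swap_apply_right, Equiv.swap_apply_of_ne_of_ne hxy hxz,
          Equiv.swap_apply_of_ne_of_ne hxy.symm hyz]
        ring
      · by_cases hz : b = z
        · subst hz
          rw [Equiv.swap_apply_right, Equiv.swap_apply_right,
            Equiv.swap_apply_of_ne_of_ne hxz.symm hyz.symm, Equiv.swap_apply_right,
            Equiv.swap_apply_right]
          ring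
        · rw [Equiv.swap_apply_of_ne_of_ne hy hz, Equiv.swap_apply_of_ne_of_ne hx hy,
            Equiv.swap_apply_of_ne_of_ne hy hz, Equiv.swap_apply_of_ne_of_ne hx hz]
  rw [← e1, ← e2, ← e3] at key
  have g1 : g (Equiv.swap x y) = - γ := by rw [f1]; ring
  have g2 : g (Equiv.swap y z) = - γ := by rw [f2]; ring
  have g3 : g (Equiv.swap x z) = - γ := by rw [f3]; ring
  rw [g1, g2, g3] at key
  have h3 : (2 : F) * (γ * γ * γ) = 0 := by linear_combination key
  rcases mul_eq_zero.1 h3 with h4 | h4
  · exact h2 h4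
  · exact hγ (by simpa using h4)

end Pool.Agent.L5helper20.PD
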