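import Pool.Agent.L5helper20.PD.Rep

/-!
Determinantal representations of the permanent with a diagonal symmetry: the final form of the lower
bound.
-/

set_option linter.unusedSectionVars false

namespace Pool.Agent.L5helper20.PD

open MvPolynomial Finset Module

variable {F : Type*} [Field F]

/-- the substitution `x_ij ↦ t_i s_j x_ij` -/
noncomputable def scale {ι : Type*} (t s : ι → F) :
    MvPolynomial (ι × ι) F →ₐ[F] MvPolynomial (ι × ι) F :=
  aeval fun e => C (t e.1 * s e.2) * X e

variable {ι : Type*} [Fintype ι] [DecidableEq ι] {J : Type*} [Fintype J] [DecidableEq J]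

lemma scale_perm (t s : ι → F) :
    scale t s (permP ι F) = C ((∏ i, t i) * ∏ i, s i) * permP ι F := by
  unfold permP Matrix.permanent
  rw [map_sum, Finset.mul_sum]
  apply Finset.sum_congr rfl
  intro σ _
  rw [map_prod]
  have h1 : ∀ i, scale t s (Matrix.of (fun i j => (X (i, j) : MvPolynomial (ι × ι) F)) (σ i) i) =
      C (t (σ i)) * C (s i) * X (σ i, i) := by
    intro i
    simp [scale]
  simp only [h1]
  rw [Finset.prod_mul_distrib, Finset.prod_mul_distrib, ← map_prod, ← map_prod, ← C_mul,
    Equiv.prod_comp σ t]
  rfl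

lemma permP_ne_zero : permP ι F ≠ 0 := by
  intro h
  have h1 := psi_perm (F := F) (1 : Equiv.Perm ι)
  rw [h, map_zero] at h1
  have h2 := congrArg (coef Finset.univ) h1
  rw [map_zero, coef_epsS, if_pos rfl] at h2
  exact zero_ne_one h2

lemma scale_affMat (t s : ι → F) (L : Matrix J J F) (A : ι × ι → Matrix J J F) :
    (affMat L A).map (scale t s) = affMat L (fun e => (t e.1 * s e.2) • A e) := by
  ext1 a b
  simp only [Matrix.map_apply, affMat, map_add, map_sum, map_mul]
  congr 1
  · exact (scale t s).commutes _
  · apply Finset.sum_congr rfl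
    intro e _
    have h1 : scale t s (C (A e a b)) = C (A e a b) := (scale t s).commutes _
    rw [h1]
    simp [scale]
    ring

lemma conj_affMat (P Q L : Matrix J J F) (A : ι × ι → Matrix J J F) :
    P.map C * affMat L A * Q.map C = affMat (P * L * Q) (fun e => P * A e * Q) :=
  conj_aff (C : F →+* MvPolynomial (ι × ι) F) P Q L A (fun e => X e)

lemma coeff_affMat_zero (L : Matrix J J F) (A : ι × ι → Matrix J J F) (a b : J) :
    (affMat L A a b).coeff 0 = L a b := by
  have h : ∀ e, coeff 0 ((X e : MvPolynomial (ι × ι) F) * C (A e a b)) = 0 := by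
    intro e
    rw [mul_comm, coeff_C_mul, coeff_zero_X, mul_zero]
  simp only [affMat, coeff_add, coeff_sum, h, Finset.sum_const_zero, add_zero, coeff_zero_C]

lemma coeff_affMat_single (L : Matrix J J F) (A : ι × ι → Matrix J J F) (a b : J) (e : ι × ι) :
    (affMat L A a b).coeff (Finsupp.single e 1) = A e a b := by
  have h : ∀ e', coeff (Finsupp.single e 1) ((X e' : MvPolynomial (ι × ι) F) * C (A e' a b)) =
      if e' = e then A e a b else 0 := by
    intro e'
    rw [mul_comm, coeff_C_mul, coeff_X]
    by_cases h : e' = e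
    · subst h; simp
    · rw [if_neg h, if_neg (fun h' => h ((Finsupp.single_left_inj one_ne_zero).1 h')), mul_zero]
  simp only [affMat, coeff_add, coeff_sum, h, coeff_C]
  rw [if_neg (by
    intro h
    have := DFunLike.congr_fun h e
    simp at this), zero_add]
  simp

lemma affMat_inj {L L' : Matrix J J F} {A A' : ι × ι → Matrix J J F}
    (h : affMat L A = affMat L' A') : L = L' ∧ A = A' := by
  constructor
  · ext a b
    rw [← coeff_affMat_zero L A, ← coeff_affMat_zero L' A', h]
  · funext e
    ext a b
    rw [← coeff_affMat_single L A, ← coeff_affMat_single L' A', h]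

/-- the lower bound for a symmetry `x ↦ P A(x) Q` -/
theorem rep_bound' [IsAlgClosed F] (h2 : (2 : F) ≠ 0) (hm : 3 ≤ Fintype.card ι)
    (L : Matrix J J F) (A : ι × ι → Matrix J J F) (hdet : (affMat L A).det = permP ι F)
    (t s : ι → F) (hsep : Separated t s) (P Q : Matrix J J F)
    (h : (affMat L A).map (scale t s) = P.map C * affMat L A * Q.map C) :
    2 ^ (Fintype.card ι) - 1 ≤ Fintype.card J := by
  have hne : ∀ i j, t i * s j ≠ 0 := by
    intro i j h0
    have : ∃ k, k ≠ j := by
      by_contra hk
      push Not at hk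
      have : Fintype.card ι ≤ 1 := Fintype.card_le_one_iff.2 (fun a b => by rw [hk a, hk b])
      omega
    obtain ⟨k, hk⟩ := this
    have : ∃ l, l ≠ i := by
      by_contra hl
      push Not at hl
      have : Fintype.card ι ≤ 1 := Fintype.card_le_one_iff.2 (fun a b => by rw [hl a, hl b])
      omega
    obtain ⟨l, hl⟩ := this
    rcases mul_eq_zero.1 h0 with h1 | h1
    · have := (hsep {i} {j} {i} {k} rfl rfl (by simp [h1])).2
      exact hk (Finset.singleton_injective this).symm
    · have := (hsep {i} {j} {l} {j} rfl rfl (by simp [h1])).1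
      exact hl (Finset.singleton_injective this).symm
  have hne1 : Nonempty ι := Fintype.card_pos_iff.1 (by omega)
  have ht : ∀ i, t i ≠ 0 := fun i h0 => hne i (Classical.arbitrary ι) (by rw [h0, zero_mul])
  have hs : ∀ i, s i ≠ 0 := fun i h0 => hne (Classical.arbitrary ι) i (by rw [h0, mul_zero])
  have h3 := h
  rw [scale_affMat, conj_affMat] at h3
  obtain ⟨h4, h5⟩ := affMat_inj h3
  have h6 : C ((∏ i, t i) * ∏ i, s i) * permP ι F = C (P.det * Q.det) * permP ι F := by
    have h7 : ((affMat L A).map (scale t s)).det = scale t s (affMat L A).det :=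
      (AlgHom.map_det (scale t s) (affMat L A)).symm
    rw [← scale_perm, ← hdet, ← h7, h, Matrix.det_mul, Matrix.det_mul]
    have h8 : ∀ M : Matrix J J F, (M.map (C : F →+* MvPolynomial (ι × ι) F)).det = C M.det :=
      fun M => (RingHom.map_det (C : F →+* MvPolynomial (ι × ι) F) M).symm
    have h9 : (P.map (C : F → MvPolynomial (ι × ι) F)).det = C P.det := h8 P
    have h10 : (Q.map (C : F → MvPolynomial (ι × ι) F)).det = C Q.det := h8 Q
    rw [h9, h10, C_mul]
    ring
  have h7 := C_injective _ _ (mul_right_cancel₀ permP_ne_zero h6)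
  have h8 : P.det * Q.det ≠ 0 := by
    rw [← h7]
    exact mul_ne_zero (Finset.prod_ne_zero_iff.2 fun i _ => ht i)
      (Finset.prod_ne_zero_iff.2 fun i _ => hs i)
  exact rep_bound h2 hm L A hdet t s hsep P Q (left_ne_zero_of_mul h8) (right_ne_zero_of_mul h8)
    h4.symm (fun e => (congrFun h5 e).symm)

lemma scale_scale (t s : ι → F) (f : MvPolynomial (ι × ι) F) :
    scale t s (scale t s f) = scale (fun i => t i ^ 2) (fun i => s i ^ 2) f := by
  have : (scale t s).comp (scale t s) = scale (fun i => t i ^ 2) (fun i => s i ^ 2) := by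
    apply MvPolynomial.algHom_ext
    intro e
    have h0 : ∀ (t s : ι → F), scale t s (X e) = C (t e.1 * s e.2) * X e := by
      intro t s
      rw [scale, aeval_X]
    have h1 : ∀ c : F, scale t s (C c) = C c := fun c => (scale t s).commutes c
    rw [AlgHom.comp_apply, h0, h0, map_mul (scale t s), h1, h0, ← mul_assoc, ← C_mul]
    congr 2
    ring
  exact DFunLike.congr_fun this f

/-- the lower bound for a symmetry `x ↦ P A(x) Q` or `x ↦ P A(x)ᵀ Q` -/
theorem rep_bound'' [IsAlgClosed F] (h2 : (2 : F) ≠ 0) (hm : 3 ≤ Fintype.card ι)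
    (L : Matrix J J F) (A : ι × ι → Matrix J J F) (hdet : (affMat L A).det = permP ι F)
    (t s : ι → F) (hsep : Separated (fun i => t i ^ 2) (fun i => s i ^ 2)) (P Q : Matrix J J F)
    (h : (affMat L A).map (scale t s) = P.map C * affMat L A * Q.map C ∨
      (affMat L A).map (scale t s) = P.map C * (affMat L A).transpose * Q.map C) :
    2 ^ (Fintype.card ι) - 1 ≤ Fintype.card J := by
  have hC : ∀ M : Matrix J J F, (M.map (C : F → MvPolynomial (ι × ι) F)).map (scale t s) =
      M.map C := by
    intro M
    ext1 a b
    exact (scale t s).commutes _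
  have hm2 : ∀ M N : Matrix J J (MvPolynomial (ι × ι) F), (M * N).map (scale t s) =
      M.map (scale t s) * N.map (scale t s) := fun M N => Matrix.map_mul
  have h0 : (affMat L A).map (scale (fun i => t i ^ 2) (fun i => s i ^ 2)) =
      ((affMat L A).map (scale t s)).map (scale t s) := by
    ext1 a b
    exact (scale_scale t s _).symm
  rcases h with h | h
  · refine rep_bound' h2 hm L A hdet _ _ hsep (P * P) (Q * Q) ?_
    rw [h0, h, hm2, hm2, hC, hC, h]
    have h3 : ∀ M N : Matrix J J F, (M * N).map (C : F → MvPolynomial (ι × ι) F) =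
        M.map C * N.map C := fun M N => Matrix.map_mul
    rw [h3, h3]
    simp only [Matrix.mul_assoc]
  · refine rep_bound' h2 hm L A hdet _ _ hsep (P * Q.transpose) (P.transpose * Q) ?_
    rw [h0, h, hm2, hm2, hC, hC]
    have h4 : ((affMat L A).transpose).map (scale t s) = ((affMat L A).map (scale t s)).transpose :=
      rfl
    rw [h4, h, Matrix.transpose_mul, Matrix.transpose_mul, Matrix.transpose_transpose]
    have h3 : ∀ M N : Matrix J J F, (M * N).map (C : F → MvPolynomial (ι × ι) F) =
        M.map C * N.map C := fun M N => Matrix.map_mul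
    rw [h3, h3, Matrix.transpose_map, Matrix.transpose_map]
    simp only [Matrix.mul_assoc]

/-- a matrix of polynomials of degree at most one -/
lemma exists_affMat (M : Matrix J J (MvPolynomial (ι × ι) F))
    (hM : ∀ a b, (M a b).totalDegree ≤ 1) : ∃ L A, M = affMat L A := by
  let L : Matrix J J F := Matrix.of fun a b => (M a b).coeff 0
  let A : ι × ι → Matrix J J F := fun e => Matrix.of fun a b => (M a b).coeff (Finsupp.single e 1)
  refine ⟨L, A, ?_⟩
  ext1 a b
  ext v
  by_cases h0 : v = 0
  · subst h0
    exact (coeff_affMat_zero L A a b).symm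
  · by_cases h1 : ∃ e, v = Finsupp.single e 1
    · obtain ⟨e, rfl⟩ := h1
      exact (coeff_affMat_single L A a b e).symm
    · have h2 : coeff v (M a b) = 0 := by
        apply coeff_eq_zero_of_totalDegree_lt
        refine lt_of_le_of_lt (hM a b) ?_
        by_contra h3
        push Not at h3
        have h5 : ∃ e, v e ≠ 0 := by
          by_contra h
          push Not at h
          exact h0 (Finsupp.ext h)
        obtain ⟨e, he⟩ := h5
        have h6 : e ∈ v.support := Finsupp.mem_support_iff.2 he
        rw [← Finset.add_sum_erase _ _ h6] at h3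
        have h7 : v e = 1 := by omega
        have h8 : ∑ x ∈ v.support.erase e, v x = 0 := by omega
        apply h1
        refine ⟨e, ?_⟩
        ext i
        by_cases hi : i = e
        · subst hi; rw [h7, Finsupp.single_eq_same]
        · rw [Finsupp.single_eq_of_ne hi]
          by_contra h9
          have h10 : i ∈ v.support.erase e :=
            Finset.mem_erase.2 ⟨hi, Finsupp.mem_support_iff.2 h9⟩
          have := Finset.single_le_sum (f := fun i => v i) (fun _ _ => Nat.zero_le _) h10
          rw [h8] at this
          exact h9 (Nat.le_zero.1 this)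
      have h3 : ∀ e, coeff v ((X e : MvPolynomial (ι × ι) F) * C (A e a b)) = 0 := by
        intro e
        rw [mul_comm, coeff_C_mul, coeff_X, if_neg, mul_zero]
        intro h
        exact h1 ⟨e, h.symm⟩
      rw [h2]
      simp only [affMat, coeff_add, coeff_sum, coeff_C, h3, Finset.sum_const_zero, add_zero]
      rw [if_neg (Ne.symm h0)]

end Pool.Agent.L5helper20.PD
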