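import Pool.Agent.L5helper20.PD.Block

/-!
A determinantal representation of the permanent of size `2 ^ m - 1` (Grenet) and its diagonal
symmetries.
-/

set_option linter.unusedSectionVars false

namespace Pool.Agent.L5helper20.PD

open MvPolynomial Finset

/-- the determinant of a matrix which is triangular with respect to a rank function -/
lemma det_of_rank {n R : Type*} [Fintype n] [DecidableEq n] [CommRing R] (M : Matrix n n R)
    (b : n → ℕ) (h : ∀ i j, M i j ≠ 0 → i = j ∨ b j < b i) : M.det = ∏ i, M i i := by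
  rw [Matrix.det_apply]
  rw [Finset.sum_eq_single_of_mem (1 : Equiv.Perm n) (Finset.mem_univ _)]
  · simp
  · intro σ _ hσ
    have : ∃ i, M (σ i) i = 0 := by
      by_contra hne
      push Not at hne
      have h1 : ∀ i, b i ≤ b (σ i) := by
        intro i
        rcases h _ _ (hne i) with h2 | h2
        · rw [h2]
        · exact h2.le
      have h3 : ∃ i, b i < b (σ i) := by
        by_contra h4
        push Not at h4
        apply hσ
        ext1 i
        rcases h _ _ (hne i) with h2 | h2
        · exact h2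
        · exact absurd h2 (not_lt.2 (h4 i))
      obtain ⟨i0, hi0⟩ := h3
      have h5 : ∑ i, b i < ∑ i, b (σ i) :=
        Finset.sum_lt_sum (fun i _ => h1 i) ⟨i0, Finset.mem_univ _, hi0⟩
      rw [Equiv.sum_comp σ b] at h5
      exact lt_irrefl _ h5
    obtain ⟨i, hi⟩ := this
    have h6 : ∏ i, M (σ i) i = 0 := Finset.prod_eq_zero (Finset.mem_univ i) hi
    rw [h6, smul_zero]

section
variable {m : ℕ} {R : Type*} [CommRing R] (x : ℕ → Fin m → R)

/-- the sum over the bijections from the first columns to `T` -/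
def pp (k : ℕ) (T : Finset (Fin m)) : R :=
  ∑ f ∈ Finset.univ.filter (fun f : Fin k → Fin m =>
    Function.Injective f ∧ Finset.univ.image f = T), ∏ i : Fin k, x i (f i)

lemma pp_zero : pp x 0 ∅ = 1 := by
  unfold pp
  rw [Finset.sum_eq_single_of_mem (fun i => i.elim0)]
  · simp
  · rw [Finset.mem_filter]
    refine ⟨Finset.mem_univ _, fun i => i.elim0, ?_⟩
    ext a
    simp
  · intro f _ hf
    exact absurd (Subsingleton.elim _ _) hf

lemma pp_succ (k : ℕ) (T : Finset (Fin m)) :
    pp x (k + 1) T = ∑ j ∈ T, x k j * pp x k (T.erase j) := by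
  unfold pp
  simp only [Finset.mul_sum]
  rw [Finset.sum_sigma']
  refine Finset.sum_bij' (fun f _ => ⟨f (Fin.last k), fun i => f i.castSucc⟩)
    (fun y _ => Fin.snoc (α := fun _ => Fin m) y.2 y.1) ?_ ?_ ?_ ?_ ?_
  · intro f hf
    rw [Finset.mem_filter] at hf
    obtain ⟨_, hinj, him⟩ := hf
    rw [Finset.mem_sigma, Finset.mem_filter]
    refine ⟨?_, Finset.mem_univ _, ?_, ?_⟩
    · rw [← him]; exact Finset.mem_image_of_mem _ (Finset.mem_univ _)
    · intro a b hab
      exact Fin.castSucc_injective _ (hinj hab)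
    · ext a
      rw [Finset.mem_erase, ← him, Finset.mem_image, Finset.mem_image]
      constructor
      · rintro ⟨i, _, rfl⟩
        refine ⟨?_, i.castSucc, Finset.mem_univ _, rfl⟩
        intro h
        exact (Fin.castSucc_lt_last i).ne (hinj h)
      · rintro ⟨hne, i, _, rfl⟩
        rcases Fin.eq_castSucc_or_eq_last i with ⟨j, rfl⟩ | rfl
        · exact ⟨j, Finset.mem_univ _, rfl⟩
        · exact absurd rfl hne
  · rintro ⟨j, g⟩ hy
    rw [Finset.mem_sigma, Finset.mem_filter] at hy
    obtain ⟨hj, _, hinj, him⟩ := hy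
    simp only at hj hinj him
    rw [Finset.mem_filter]
    have hg : ∀ i, g i ≠ j := by
      intro i h
      have : g i ∈ T.erase j := by
        rw [← him]; exact Finset.mem_image_of_mem _ (Finset.mem_univ _)
      rw [h] at this
      simp at this
    refine ⟨Finset.mem_univ _, ?_, ?_⟩
    · intro a b hab
      rcases Fin.eq_castSucc_or_eq_last a with ⟨a', rfl⟩ | rfl <;>
      rcases Fin.eq_castSucc_or_eq_last b with ⟨b', rfl⟩ | rfl
      · simp only [Fin.snoc_castSucc] at hab
        rw [hinj hab]
      · simp only [Fin.snoc_castSucc, Fin.snoc_last] at hab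
        exact absurd hab (hg _)
      · simp only [Fin.snoc_castSucc, Fin.snoc_last] at hab
        exact absurd hab.symm (hg _)
      · rfl
    · ext a
      rw [Finset.mem_image]
      constructor
      · rintro ⟨i, _, rfl⟩
        rcases Fin.eq_castSucc_or_eq_last i with ⟨i', rfl⟩ | rfl
        · simp only [Fin.snoc_castSucc]
          have : g i' ∈ T.erase j := by
            rw [← him]; exact Finset.mem_image_of_mem _ (Finset.mem_univ _)
          exact Finset.mem_of_mem_erase this
        · simp only [Fin.snoc_last]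
          exact hj
      · intro ha
        by_cases haj : a = j
        · exact ⟨Fin.last k, Finset.mem_univ _, by simp [haj]⟩
        · have : a ∈ T.erase j := Finset.mem_erase.2 ⟨haj, ha⟩
          rw [← him, Finset.mem_image] at this
          obtain ⟨i, _, hi⟩ := this
          exact ⟨i.castSucc, Finset.mem_univ _, by simp [hi]⟩
  · intro f hf
    funext i
    rcases Fin.eq_castSucc_or_eq_last i with ⟨j, rfl⟩ | rfl
    · simp
    · simp
  · rintro ⟨j, g⟩ hy
    simp
  · intro f hf
    rw [Fin.prod_univ_castSucc, mul_comm]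
    simp

lemma pp_univ : pp x m Finset.univ = ∑ σ : Equiv.Perm (Fin m), ∏ i : Fin m, x i (σ i) := by
  unfold pp
  symm
  refine Finset.sum_bij (fun σ _ => ⇑σ) ?_ ?_ ?_ ?_
  · intro σ _
    rw [Finset.mem_filter]
    refine ⟨Finset.mem_univ _, σ.injective, ?_⟩
    exact Finset.image_univ_of_surjective σ.surjective
  · intro σ _ τ _ h
    exact DFunLike.coe_injective h
  · intro f hf
    rw [Finset.mem_filter] at hf
    exact ⟨Equiv.ofBijective f (Finite.injective_iff_bijective.1 hf.2.1), Finset.mem_univ _, rfl⟩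
  · intro σ _
    rfl

/-- the index set: the proper subsets -/
abbrev GJ (m : ℕ) := {S : Finset (Fin m) // S ≠ Finset.univ}

/-- the empty set stands for the full set in the rows -/
def top (T : Finset (Fin m)) : Finset (Fin m) := if T = ∅ then Finset.univ else T

/-- the edges -/
def gD (T S : Finset (Fin m)) : R :=
  ∑ j, if j ∉ S ∧ top T = insert j S then x S.card j else 0

/-- the matrix -/
def gG : Matrix (GJ m) (GJ m) R :=
  Matrix.of fun T S => if S.1 = ∅ then gD x T.1 S.1 else (if T = S then 1 else 0) - gD x T.1 S.1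

/-- the column operation -/
def gV : Matrix (GJ m) (GJ m) R :=
  Matrix.of fun S S' => if S = S' then 1 else if S'.1 = ∅ then - pp x S.1.card S.1 else 0

lemma top_nonempty (hm : 1 ≤ m) (T : Finset (Fin m)) : (top T).Nonempty := by
  unfold top
  split_ifs with h
  · have : Nonempty (Fin m) := ⟨⟨0, hm⟩⟩
    exact Finset.univ_nonempty
  · exact Finset.nonempty_iff_ne_empty.2 h

lemma sum_gD (hm : 1 ≤ m) (T : GJ m) :
    ∑ S : GJ m, gD x T.1 S.1 * pp x S.1.card S.1 = pp x (top T.1).card (top T.1) := by
  obtain ⟨k, hk⟩ : ∃ k, (top T.1).card = k + 1 :=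
    ⟨(top T.1).card - 1, by have := (top_nonempty hm T.1).card_pos; omega⟩
  rw [hk, pp_succ]
  unfold gD
  simp only [Finset.sum_mul]
  rw [Finset.sum_comm, ← Finset.sum_subset (Finset.subset_univ (top T.1))]
  · apply Finset.sum_congr rfl
    intro j hj
    have hne : (top T.1).erase j ≠ Finset.univ := by
      intro h
      have : j ∈ (top T.1).erase j := by rw [h]; exact Finset.mem_univ _
      simp at this
    have hc : ((top T.1).erase j).card = k := by
      rw [Finset.card_erase_of_mem hj]; omega
    rw [Finset.sum_eq_single_of_mem (⟨(top T.1).erase j, hne⟩ : GJ m) (Finset.mem_univ _)]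
    · rw [if_pos ⟨Finset.notMem_erase _ _, (Finset.insert_erase hj).symm⟩, hc]
    · intro S _ hS
      rw [if_neg, zero_mul]
      rintro ⟨h1, h2⟩
      apply hS
      ext1
      simp only [h2, Finset.erase_insert h1]
  · intro j _ hj
    apply Finset.sum_eq_zero
    intro S _
    rw [if_neg, zero_mul]
    rintro ⟨_, h2⟩
    apply hj
    rw [h2]
    exact Finset.mem_insert_self _ _

lemma gGV_of_ne (T S : GJ m) (hS : S.1 ≠ ∅) : (gG x * gV x) T S = gG x T S := by
  rw [Matrix.mul_apply, Finset.sum_eq_single_of_mem S (Finset.mem_univ _)]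
  · simp [gV]
  · intro S' _ h
    simp [gV, h, hS]

lemma gGV_empty (hm : 1 ≤ m) (T S : GJ m) (hS : S.1 = ∅) :
    (gG x * gV x) T S = if T.1 = ∅ then pp x m Finset.univ else 0 := by
  have h1 : ∀ S' : GJ m, gG x T S' * gV x S' S =
      gD x T.1 S'.1 * pp x S'.1.card S'.1 - if T = S' ∧ T.1 ≠ ∅ then pp x T.1.card T.1 else 0 := by
    intro S'
    by_cases h : S'.1 = ∅
    · have h2 : S' = S := Subtype.ext (by rw [h, hS])
      have h3 : ¬ (T = S' ∧ T.1 ≠ ∅) := by
        rintro ⟨rfl, h4⟩
        exact h4 h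
      rw [if_neg h3, sub_zero, h, Finset.card_empty, pp_zero]
      simp [gG, gV, h2, hS]
    · have h2 : S' ≠ S := by
        intro h3; exact h (by rw [h3, hS])
      simp only [gG, gV, Matrix.of_apply, if_neg h, if_neg h2, if_pos hS]
      by_cases h4 : T = S'
      · subst h4
        rw [if_pos rfl, if_pos ⟨rfl, h⟩]
        ring
      · rw [if_neg h4, if_neg (fun h5 => h4 h5.1)]
        ring
  rw [Matrix.mul_apply]
  simp only [h1]
  rw [Finset.sum_sub_distrib, sum_gD x hm]
  by_cases hT : T.1 = ∅
  · simp [hT, top]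
  · rw [if_neg hT]
    have h5 : ∑ S' : GJ m, (if T = S' ∧ T.1 ≠ ∅ then pp x T.1.card T.1 else 0) =
        pp x T.1.card T.1 := by
      rw [Finset.sum_eq_single_of_mem T (Finset.mem_univ _)]
      · rw [if_pos ⟨rfl, hT⟩]
      · intro S' _ h
        rw [if_neg (fun h6 => h h6.1.symm)]
    rw [h5]
    simp [top, hT]

lemma gD_ne_zero {T S : Finset (Fin m)} (h : gD x T S ≠ 0) :
    ∃ j, j ∉ S ∧ top T = insert j S := by
  obtain ⟨j, _, hj⟩ := Finset.exists_ne_zero_of_sum_ne_zero h
  by_contra hne
  push Not at hne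
  apply hj
  rw [if_neg]
  rintro ⟨h1, h2⟩
  exact hne j h1 h2

lemma gD_self {T : Finset (Fin m)} (hT : T ≠ ∅) : gD x T T = 0 := by
  by_contra h
  obtain ⟨j, h1, h2⟩ := gD_ne_zero x h
  rw [top, if_neg hT] at h2
  apply h1
  rw [h2]
  exact Finset.mem_insert_self _ _

lemma det_gG (hm : 1 ≤ m) : (gG x).det = ∑ σ : Equiv.Perm (Fin m), ∏ i : Fin m, x i (σ i) := by
  have h1 : (gV x).det = 1 := by
    rw [det_of_rank (gV x) (fun S => S.1.card)]
    · apply Finset.prod_eq_one
      intro S _
      simp [gV]
    · intro S S' h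
      by_cases h2 : S = S'
      · exact Or.inl h2
      · right
        rw [gV, Matrix.of_apply, if_neg h2] at h
        have h3 : S'.1 = ∅ := by
          by_contra h3
          rw [if_neg h3] at h
          exact h rfl
        have h4 : S.1 ≠ ∅ := fun h4 => h2 (Subtype.ext (by rw [h4, h3]))
        show S'.1.card < S.1.card
        rw [h3, Finset.card_empty]
        exact (Finset.nonempty_iff_ne_empty.2 h4).card_pos
  have h2 : (gG x * gV x).det = pp x m Finset.univ := by
    rw [det_of_rank (gG x * gV x) (fun S => if S.1 = ∅ then m + 1 else S.1.card)]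
    · have hne : (∅ : Finset (Fin m)) ≠ Finset.univ := by
        have : Nonempty (Fin m) := ⟨⟨0, hm⟩⟩
        exact Finset.univ_nonempty.ne_empty.symm
      rw [Finset.prod_eq_single_of_mem (⟨∅, hne⟩ : GJ m) (Finset.mem_univ _)]
      · rw [gGV_empty x hm _ _ rfl, if_pos rfl]
      · intro T _ hT
        have hT' : T.1 ≠ ∅ := fun h => hT (Subtype.ext h)
        rw [gGV_of_ne x T T hT']
        simp only [gG, Matrix.of_apply, if_neg hT', gD_self x hT']
        simp
    · intro T S h
      by_cases hS : S.1 = ∅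
      · rw [gGV_empty x hm T S hS] at h
        left
        by_cases hT : T.1 = ∅
        · exact Subtype.ext (by rw [hT, hS])
        · rw [if_neg hT] at h
          exact absurd rfl h
      · rw [gGV_of_ne x T S hS] at h
        by_cases hTS : T = S
        · exact Or.inl hTS
        · right
          rw [gG, Matrix.of_apply, if_neg hS, if_neg hTS, zero_sub, neg_ne_zero] at h
          obtain ⟨j, h3, h4⟩ := gD_ne_zero x h
          simp only [if_neg hS]
          by_cases hT : T.1 = ∅
          · rw [if_pos hT]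
            have := Finset.card_le_univ S.1
            rw [Fintype.card_fin] at this
            omega
          · rw [if_neg hT]
            rw [top, if_neg hT] at h4
            rw [h4, Finset.card_insert_of_notMem h3]
            omega
  rw [Matrix.det_mul, h1, mul_one] at h2
  rw [h2, pp_univ]

end

lemma card_GJ (m : ℕ) : Fintype.card (GJ m) = 2 ^ m - 1 := by
  rw [Fintype.card_subtype_compl]
  simp

section
variable {F : Type*} [Field F] {m : ℕ}

/-- the variables, with a column index in `ℕ` -/
noncomputable def gx (k : ℕ) (j : Fin m) : MvPolynomial (Fin m × Fin m) F :=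
  if h : k < m then X (j, ⟨k, h⟩) else 0

/-- a weight, extended to `ℕ` -/
def gs (s : Fin m → F) (k : ℕ) : F := if h : k < m then s ⟨k, h⟩ else 1

/-- the weight of a set -/
def gw (t s : Fin m → F) (S : Finset (Fin m)) : F :=
  (∏ j ∈ S, t j) * ∏ k ∈ Finset.range S.card, gs s k

lemma gw_insert (t s : Fin m → F) {S : Finset (Fin m)} {j : Fin m} (hj : j ∉ S) :
    gw t s (insert j S) = (t j * gs s S.card) * gw t s S := by
  unfold gw
  rw [Finset.prod_insert hj, Finset.card_insert_of_notMem hj, Finset.prod_range_succ]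
  ring

lemma gw_ne_zero (t s : Fin m → F) (ht : ∀ i, t i ≠ 0) (hs : ∀ i, s i ≠ 0)
    (S : Finset (Fin m)) : gw t s S ≠ 0 := by
  unfold gw
  refine mul_ne_zero (Finset.prod_ne_zero_iff.2 fun i _ => ht i)
    (Finset.prod_ne_zero_iff.2 fun k _ => ?_)
  unfold gs
  split_ifs with h
  · exact hs _
  · exact one_ne_zero

lemma scale_gx (t s : Fin m → F) (k : ℕ) (j : Fin m) :
    scale t s (gx k j) = C (t j * gs s k) * gx k j := by
  unfold gx gs
  by_cases h : k < m
  · rw [dif_pos h, dif_pos h, scale, aeval_X]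
  · rw [dif_neg h, map_zero, mul_zero]

lemma scale_gD (t s : Fin m → F) (ht : ∀ i, t i ≠ 0) (hs : ∀ i, s i ≠ 0)
    (T S : Finset (Fin m)) :
    scale t s (gD gx T S) = C (gw t s (top T)) * gD gx T S * C ((gw t s S)⁻¹) := by
  unfold gD
  rw [map_sum, Finset.mul_sum, Finset.sum_mul]
  apply Finset.sum_congr rfl
  intro j _
  by_cases h : j ∉ S ∧ top T = insert j S
  · rw [if_pos h, h.2, gw_insert t s h.1, scale_gx, mul_comm (C (t j * gs s S.card * gw t s S)),
      mul_assoc (gx S.card j), ← C_mul, mul_assoc (t j * gs s S.card),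
      mul_inv_cancel₀ (gw_ne_zero t s ht hs S), mul_one, mul_comm]
  · rw [if_neg h, map_zero, mul_zero, zero_mul]

lemma scale_gG (t s : Fin m → F) (ht : ∀ i, t i ≠ 0) (hs : ∀ i, s i ≠ 0) :
    (gG gx : Matrix (GJ m) (GJ m) (MvPolynomial (Fin m × Fin m) F)).map (scale t s) =
      (Matrix.diagonal fun T : GJ m => gw t s (top T.1)).map C * gG gx *
        (Matrix.diagonal fun S : GJ m => (gw t s S.1)⁻¹).map C := by
  rw [Matrix.diagonal_map (map_zero _), Matrix.diagonal_map (map_zero _)]
  ext1 T S
  rw [Matrix.mul_diagonal, Matrix.diagonal_mul, Matrix.map_apply, gG, Matrix.of_apply]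
  by_cases hS : S.1 = ∅
  · rw [if_pos hS]
    exact scale_gD t s ht hs _ _
  · rw [if_neg hS, map_sub, scale_gD t s ht hs, mul_sub, sub_mul]
    congr 1
    by_cases hTS : T = S
    · subst hTS
      rw [if_pos rfl, map_one, top, if_neg hS, mul_one, ← C_mul,
        mul_inv_cancel₀ (gw_ne_zero t s ht hs _), C_1]
    · rw [if_neg hTS, map_zero, mul_zero, zero_mul]

lemma degree_gG (T S : GJ m) :
    ((gG gx : Matrix (GJ m) (GJ m) (MvPolynomial (Fin m × Fin m) F)) T S).totalDegree ≤ 1 := by
  have h1 : ∀ T S : Finset (Fin m), (gD gx T S : MvPolynomial (Fin m × Fin m) F).totalDegree ≤ 1 := by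
    intro T S
    unfold gD
    refine totalDegree_finsetSum_le ?_
    intro j _
    split_ifs
    · unfold gx
      split_ifs
      · rw [totalDegree_X]
      · rw [totalDegree_zero]; omega
    · rw [totalDegree_zero]; omega
  rw [gG, Matrix.of_apply]
  split_ifs
  · exact h1 _ _
  · refine (totalDegree_sub _ _).trans (max_le ?_ (h1 _ _))
    rw [totalDegree_one]; omega
  · refine (totalDegree_sub _ _).trans (max_le ?_ (h1 _ _))
    rw [totalDegree_zero]; omega

lemma det_gG_perm (hm : 1 ≤ m) :
    (gG gx : Matrix (GJ m) (GJ m) (MvPolynomial (Fin m × Fin m) F)).det = permP (Fin m) F := by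
  rw [det_gG _ hm]
  unfold permP Matrix.permanent
  apply Finset.sum_congr rfl
  intro σ _
  apply Finset.prod_congr rfl
  intro i _
  unfold gx
  rw [dif_pos i.2]
  rfl

/-- Grenet's representation and its diagonal symmetries -/
theorem grenet (hm : 1 ≤ m) :
    ∃ A : Matrix (Fin (2 ^ m - 1)) (Fin (2 ^ m - 1)) (MvPolynomial (Fin m × Fin m) F),
      (∀ i j, (A i j).totalDegree ≤ 1) ∧ A.det = permP (Fin m) F ∧
      ∀ t s : Fin m → F, (∀ i, t i ≠ 0) → (∀ i, s i ≠ 0) →
        ∃ P Q : Matrix (Fin (2 ^ m - 1)) (Fin (2 ^ m - 1)) F,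
          A.map (scale t s) = P.map C * A * Q.map C := by
  let e : GJ m ≃ Fin (2 ^ m - 1) := Fintype.equivFinOfCardEq (card_GJ m)
  refine ⟨(gG gx).submatrix e.symm e.symm, fun i j => degree_gG _ _, ?_, ?_⟩
  · rw [Matrix.det_submatrix_equiv_self, det_gG_perm hm]
  · intro t s ht hs
    refine ⟨(Matrix.diagonal fun T : GJ m => gw t s (top T.1)).submatrix e.symm e.symm,
      (Matrix.diagonal fun S : GJ m => (gw t s S.1)⁻¹).submatrix e.symm e.symm, ?_⟩
    have h := scale_gG (F := F) t s ht hs
    have h2 := congrArg (fun M : Matrix (GJ m) (GJ m) (MvPolynomial (Fin m × Fin m) F) =>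
      M.submatrix e.symm e.symm) h
    beta_reduce at h2
    rw [← Matrix.submatrix_mul_equiv _ _ e.symm e.symm e.symm,
      ← Matrix.submatrix_mul_equiv _ _ e.symm e.symm e.symm] at h2
    exact h2

end

end Pool.Agent.L5helper20.PD
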