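import Pool.Agent.L5helper20.PD.Core
import Pool.Agent.L5helper20.PD.Count

/-!
The lower bound for graded matrices in normal form.
-/

set_option linter.unusedSectionVars false

namespace Pool.Agent.L5helper20.PD

open MvPolynomial Finset

variable {ι : Type*} [Fintype ι] [DecidableEq ι] {F : Type*} [Field F]
variable {I : Type*} [Fintype I] [DecidableEq I]

/-- the products over a set of rows and a set of columns determine the two sets -/
def Separated (t s : ι → F) : Prop :=
  ∀ S S' T T' : Finset ι, S.card = S'.card → T.card = T'.card →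
    (∏ i ∈ S, t i) * ∏ j ∈ S', s j = (∏ i ∈ T, t i) * ∏ j ∈ T', s j → S = T ∧ S' = T'

/-- graded families of matrices in normal form -/
structure Graded (p : I → Prop) (A : ι × ι → Matrix I I F) (t s : ι → F) (wr wc : I → F) :
    Prop where
  ent : ∀ e a b, A e a b ≠ 0 → wr a = wc b * (t e.1 * s e.2)
  eqW : ∀ a, p a → wr a = wc a
  ne : ∀ a, wc a ≠ 0

/-- the matrices on the graph of a permutation -/
def onPerm (A : ι × ι → Matrix I I F) (σ : Equiv.Perm ι) : ι → Matrix I I F :=
  fun i => A (σ i, i)

variable {p : I → Prop} [DecidablePred p] {A : ι × ι → Matrix I I F} {t s : ι → F}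
  {wr wc : I → F}

/-- the product over the graph of a permutation -/
def gp (t s : ι → F) (σ : Equiv.Perm ι) (S : Finset ι) : F :=
  (∏ i ∈ S.map σ.toEmbedding, t i) * ∏ j ∈ S, s j

lemma gp_empty (σ : Equiv.Perm ι) : gp t s σ ∅ = 1 := by simp [gp]

lemma gp_erase (σ : Equiv.Perm ι) {S : Finset ι} {i : ι} (hi : i ∈ S) :
    gp t s σ (S.erase i) * (t (σ i) * s i) = gp t s σ S := by
  unfold gp
  rw [Finset.prod_map, Finset.prod_map, ← Finset.mul_prod_erase S _ hi,
    ← Finset.mul_prod_erase S (fun j => s j) hi]
  simp only [Equiv.coe_toEmbedding]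
  ring

lemma vec_weight (hA : Graded p A t s wr wc) (σ : Equiv.Perm ι) (b : I) (S : Finset ι) :
    ∀ a, vec p (onPerm A σ) b S a ≠ 0 → wc a = wc b * gp t s σ S := by
  induction hn : S.card using Nat.strong_induction_on generalizing S with
  | _ n ih =>
    intro a ha
    by_cases hS : S = ∅
    · subst hS
      rw [vec_empty, Pi.single_apply] at ha
      have : a = b := by
        by_contra h
        rw [if_neg h] at ha
        exact ha rfl
      rw [this, gp_empty, mul_one]
    · rw [vec_of_ne p _ hS] at ha
      by_cases hpa : p a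
      · rw [if_pos hpa, neg_ne_zero, rem] at ha
        obtain ⟨i, hi, h1⟩ := Finset.exists_ne_zero_of_sum_ne_zero ha
        obtain ⟨c, _, h2⟩ := Finset.exists_ne_zero_of_sum_ne_zero h1
        have h3 := hA.ent _ _ _ (left_ne_zero_of_mul h2)
        have h4 := ih _ (by rw [← hn]; exact Finset.card_erase_lt_of_mem hi) (S.erase i) rfl c
          (right_ne_zero_of_mul h2)
        rw [← hA.eqW a hpa, h3, h4, mul_assoc, gp_erase σ hi]
      · rw [if_neg hpa] at ha
        exact absurd rfl ha

lemma rem_weight (hA : Graded p A t s wr wc) (σ : Equiv.Perm ι) (b : I) (S : Finset ι)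
    (a : I) (ha : rem p (onPerm A σ) b S a ≠ 0) : wr a = wc b * gp t s σ S := by
  rw [rem] at ha
  obtain ⟨i, hi, h1⟩ := Finset.exists_ne_zero_of_sum_ne_zero ha
  obtain ⟨c, _, h2⟩ := Finset.exists_ne_zero_of_sum_ne_zero h1
  have h3 := hA.ent _ _ _ (left_ne_zero_of_mul h2)
  have h4 := vec_weight hA σ b (S.erase i) c (right_ne_zero_of_mul h2)
  rw [h3, h4, mul_assoc, gp_erase σ hi]

/-- descending from a nonzero remainder -/
lemma exists_vec (σ : Equiv.Perm ι) (b : I) (a0 : I)
    (h0 : rem p (onPerm A σ) b Finset.univ a0 ≠ 0) (k : ℕ) (hk : k < Fintype.card ι) :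
    ∃ S : Finset ι, S.card = k ∧ ∃ a, vec p (onPerm A σ) b S a ≠ 0 := by
  obtain ⟨d, hd⟩ : ∃ d, k + d + 1 = Fintype.card ι := ⟨Fintype.card ι - k - 1, by omega⟩
  induction d generalizing k with
  | zero =>
    rw [rem] at h0
    obtain ⟨i, hi, h1⟩ := Finset.exists_ne_zero_of_sum_ne_zero h0
    obtain ⟨c, _, h2⟩ := Finset.exists_ne_zero_of_sum_ne_zero h1
    refine ⟨_, ?_, c, right_ne_zero_of_mul h2⟩
    rw [Finset.card_erase_of_mem hi, Finset.card_univ]
    omega
  | succ d ih =>
    obtain ⟨S, hS, a, ha⟩ := ih (k + 1) (by omega) (by omega)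
    have hne : S ≠ ∅ := by
      intro h; rw [h, Finset.card_empty] at hS; omega
    rw [vec_of_ne p _ hne] at ha
    by_cases hpa : p a
    · rw [if_pos hpa, neg_ne_zero, rem] at ha
      obtain ⟨i, hi, h1⟩ := Finset.exists_ne_zero_of_sum_ne_zero ha
      obtain ⟨c, _, h2⟩ := Finset.exists_ne_zero_of_sum_ne_zero h1
      refine ⟨_, ?_, c, right_ne_zero_of_mul h2⟩
      rw [Finset.card_erase_of_mem hi]
      omega
    · rw [if_neg hpa] at ha
      exact absurd rfl ha

/-- the number of permutations which map `S` onto `S'` -/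
lemma card_maps (S S' : Finset ι) :
    (Finset.univ.filter fun σ : Equiv.Perm ι => S.map σ.toEmbedding = S').card ≤
      (S.card).factorial * (Fintype.card ι - S.card).factorial := by
  refine (card_le_of_label (fun i => decide (i ∈ S)) _ ?_).trans ?_
  · intro σ hσ τ hτ x
    simp only [Finset.mem_filter, Finset.mem_univ, true_and] at hσ hτ
    have h1 : τ x ∈ S' ↔ x ∈ S := by
      rw [← hτ]; simp
    have h2 : σ⁻¹ (τ x) ∈ S ↔ τ x ∈ S' := by
      rw [← hσ, Finset.mem_map_equiv]; rfl
    simp only [decide_eq_decide]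
    rw [h2, h1]
  · rw [Fintype.prod_bool]
    apply le_of_eq
    congr 2
    · rw [Fintype.card_subtype]
      simp
    · rw [Fintype.card_subtype, ← Finset.card_compl]
      congr 1
      ext x; simp

/-- The case of corank one. -/
lemma bound_one (hA : Graded p A t s wr wc) (hsep : Separated t s) (b0 : I)
    (h : ∀ σ : Equiv.Perm ι, ∃ a0, rem p (onPerm A σ) b0 Finset.univ a0 ≠ 0) :
    2 ^ (Fintype.card ι) - 2 ≤ (Finset.univ.filter fun a => p a).card := by
  classical
  set m := Fintype.card ι with hm
  -- the pairs which occur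
  let P : Finset (Finset ι × Finset ι) := Finset.univ.filter fun x =>
    x.1.card = x.2.card ∧ (1 ≤ x.2.card ∧ x.2.card < m) ∧
      ∃ a, p a ∧ wc a = wc b0 * ((∏ i ∈ x.1, t i) * ∏ j ∈ x.2, s j)
  have hP : P.card ≤ (Finset.univ.filter fun a => p a).card := by
    have hex : ∀ x ∈ P, ∃ a, p a ∧ wc a = wc b0 * ((∏ i ∈ x.1, t i) * ∏ j ∈ x.2, s j) := by
      intro x hx
      simp only [P, Finset.mem_filter, Finset.mem_univ, true_and] at hx
      exact hx.2.2
    have : Nonempty I := ⟨b0⟩
    choose! f hf using hex
    refine Finset.card_le_card_of_injOn f ?_ ?_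
    · intro x hx
      simp only [Finset.coe_filter, Finset.mem_univ, true_and, Set.mem_ofPred_eq]
      exact (hf x hx).1
    · intro x hx y hy hxy
      have h1 := (hf x hx).2
      have h2 := (hf y hy).2
      rw [hxy, h2] at h1
      have h3 := mul_left_cancel₀ (hA.ne b0) h1
      simp only [P, Finset.coe_filter, Finset.mem_univ, true_and, Set.mem_ofPred_eq] at hx hy
      have h4 := hsep _ _ _ _ hy.1 hx.1 h3
      exact Prod.ext h4.1.symm h4.2.symm
  have hcount : ∀ k, 1 ≤ k → k < m → m.choose k ≤ (P.filter fun x => x.2.card = k).card := by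
    intro k hk1 hk2
    have h1 : Fintype.card (Equiv.Perm ι) ≤
        ∑ x ∈ P.filter (fun x => x.2.card = k),
          (Finset.univ.filter fun σ : Equiv.Perm ι => x.2.map σ.toEmbedding = x.1).card := by
      rw [← Finset.card_univ]
      refine (Finset.card_le_card ?_).trans Finset.card_biUnion_le
      intro σ _
      obtain ⟨a0, ha0⟩ := h σ
      obtain ⟨S, hS, a, ha⟩ := exists_vec σ b0 a0 ha0 k hk2
      have hne : S ≠ ∅ := by
        intro h; rw [h, Finset.card_empty] at hS; omega
      have hpa : p a := by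
        by_contra hpa
        rw [vec_of_ne p _ hne, if_neg hpa] at ha
        exact ha rfl
      simp only [Finset.mem_biUnion, Finset.mem_filter, Finset.mem_univ, true_and, P]
      refine ⟨(S.map σ.toEmbedding, S), ⟨⟨by simp, ⟨?_, ?_⟩, a, hpa, ?_⟩, hS⟩, rfl⟩
      · show 1 ≤ S.card
        omega
      · show S.card < m
        omega
      · exact vec_weight hA σ b0 S a ha
    rw [Fintype.card_perm] at h1
    have h2 : ∑ x ∈ P.filter (fun x => x.2.card = k),
          (Finset.univ.filter fun σ : Equiv.Perm ι => x.2.map σ.toEmbedding = x.1).card ≤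
        (P.filter fun x => x.2.card = k).card * (k.factorial * (m - k).factorial) := by
      apply Finset.sum_le_card_nsmul
      intro x hx
      have := card_maps x.2 x.1
      rw [(Finset.mem_filter.1 hx).2] at this
      exact this
    have h3 : m.factorial = m.choose k * (k.factorial * (m - k).factorial) := by
      rw [← Nat.choose_mul_factorial_mul_factorial hk2.le]; ring
    have h4 : m.choose k * (k.factorial * (m - k).factorial) ≤
        (P.filter fun x => x.2.card = k).card * (k.factorial * (m - k).factorial) := by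
      rw [← h3]; exact h1.trans h2
    exact Nat.le_of_mul_le_mul_right h4 (by positivity)
  have hsum : ∑ k ∈ Finset.Ico 1 m, m.choose k ≤ P.card := by
    calc ∑ k ∈ Finset.Ico 1 m, m.choose k ≤
          ∑ k ∈ Finset.Ico 1 m, (P.filter fun x => x.2.card = k).card := by
          apply Finset.sum_le_sum
          intro k hk
          rw [Finset.mem_Ico] at hk
          exact hcount k hk.1 hk.2
      _ = P.card := by
          symm
          apply Finset.card_eq_sum_card_fiberwise
          intro x hx
          simp only [P, Finset.coe_filter, Finset.mem_univ, true_and, Set.mem_ofPred_eq] at hx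
          simp only [Finset.coe_Ico, Set.mem_Ico]
          exact hx.2.1
  have h5 : 2 ^ m - 2 ≤ ∑ k ∈ Finset.Ico 1 m, m.choose k := by
    rcases Nat.eq_zero_or_pos m with h0 | h0
    · rw [h0]; simp
    · have h6 := Nat.sum_range_choose m
      rw [Finset.sum_range_succ, Finset.range_eq_Ico, Finset.sum_eq_sum_Ico_succ_bot h0,
        Nat.choose_zero_right, Nat.choose_self] at h6
      simp only [zero_add] at h6
      omega
  exact h5.trans (hsum.trans hP)

/-- The separation property for permutations. -/
lemma sep_perm (hsep : Separated t s) {σ τ : Equiv.Perm ι} {S T : Finset ι}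
    (h : gp t s σ S = gp t s τ T) : S = T ∧ S.map σ.toEmbedding = T.map τ.toEmbedding := by
  have := hsep _ _ _ _ (by simp) (by simp) h
  exact ⟨this.2, this.1⟩

/-- The case of corank at least two does not occur. -/
lemma no_high_corank (h2 : (2 : F) ≠ 0) (hm : 3 ≤ Fintype.card ι) (hA : Graded p A t s wr wc)
    (hsep : Separated t s) {γ : F} (hγ : γ ≠ 0)
    (hdet : ∀ σ : Equiv.Perm ι, (Mat p (onPerm A σ)).det =
      algebraMap F (Nil ι F) γ * epsS Finset.univ)
    (hc : 2 ≤ Fintype.card {a // ¬ p a}) : False := by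
  classical
  set m := Fintype.card ι with hmdef
  set κ := {a // ¬ p a} with hκ
  set c := Fintype.card κ with hcdef
  have hex := fun σ => exists_term p (onPerm A σ) hγ (hdet σ)
  choose π φ hpart hne using hex
  -- weights
  have hw : ∀ σ (b : κ), wr (π σ b) = wc b * gp t s σ (φ σ b) :=
    fun σ b => rem_weight hA σ b _ _ (hne σ b)
  have hnonempty : ∀ σ (b : κ), 1 ≤ (φ σ b).card := by
    intro σ b
    rw [Nat.one_le_iff_ne_zero, Finset.card_ne_zero]
    by_contra h
    rw [Finset.not_nonempty_iff_eq_empty] at h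
    apply hne σ b
    rw [h, rem_empty]
  have hsum : ∀ σ, ∑ b, (φ σ b).card = m := by
    intro σ
    rw [← Finset.card_biUnion (fun x _ y _ hxy => (hpart σ).1 x y hxy), hmdef,
      ← Finset.card_univ]
    congr 1
    ext i
    simp only [Finset.mem_biUnion, Finset.mem_univ, true_and, iff_true]
    exact (hpart σ).2 i
  -- two permutations with the same `π`
  have hsame : ∀ σ τ, π σ = π τ → ∀ b, φ σ b = φ τ b ∧
      (φ σ b).map σ.toEmbedding = (φ τ b).map τ.toEmbedding := by
    intro σ τ h b
    have h1 := hw σ b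
    rw [h, hw τ b] at h1
    exact sep_perm hsep (mul_left_cancel₀ (hA.ne b) h1).symm
  have hcm : c ≤ m := by
    rw [← hsum 1, hcdef, ← Finset.card_univ, Finset.card_eq_sum_ones]
    exact Finset.sum_le_sum fun b _ => hnonempty 1 b
  -- the fibres of `π`
  have hfib : ∀ ϖ : Equiv.Perm κ, (Finset.univ.filter fun σ => π σ = ϖ).card ≤
      (m - c + 1).factorial := by
    intro ϖ
    rcases (Finset.univ.filter fun σ => π σ = ϖ).eq_empty_or_nonempty with h | ⟨τ, hτ⟩
    · rw [h]; simp
    · simp only [Finset.mem_filter, Finset.mem_univ, true_and] at hτ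
      have hlab : ∀ i, ∃ b, i ∈ φ τ b := (hpart τ).2
      choose f hf using hlab
      have hf' : ∀ i b, i ∈ φ τ b → f i = b := by
        intro i b hi
        by_contra h
        exact (Finset.disjoint_left.1 ((hpart τ).1 _ _ h) (hf i)) hi
      refine (card_le_of_label f _ ?_).trans ?_
      · intro σ hσ σ' hσ' x
        simp only [Finset.mem_filter, Finset.mem_univ, true_and] at hσ hσ'
        apply hf'
        have h1 := hsame σ τ (hσ.trans hτ.symm) (f x)
        have h2 := hsame σ' τ (hσ'.trans hτ.symm) (f x)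
        have h3 : σ' x ∈ (φ σ' (f x)).map σ'.toEmbedding := by
          rw [h2.1]; simpa using hf x
        rw [h2.2, ← h1.2, Finset.mem_map_equiv, h1.1] at h3
        exact h3
      · have h4 : ∀ b, Fintype.card {a // f a = b} = (φ τ b).card := by
          intro b
          rw [Fintype.card_subtype]
          congr 1
          ext i
          simp only [Finset.mem_filter, Finset.mem_univ, true_and]
          exact ⟨fun h => h ▸ hf i, fun h => hf' i b h⟩
        simp only [h4]
        refine (prod_fact_le Finset.univ _ (fun b _ => hnonempty τ b)).trans ?_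
        apply Nat.factorial_le
        have h5 : ∑ b, ((φ τ b).card - 1) + c = m := by
          rw [← hsum τ, hcdef, ← Finset.card_univ, Finset.card_eq_sum_ones,
            ← Finset.sum_add_distrib]
          apply Finset.sum_congr rfl
          intro b _
          have := hnonempty τ b
          omega
        exact Nat.add_le_add_right (Nat.le_sub_of_add_le h5.le) 1
  have htotal : m.factorial ≤ c.factorial * (m - c + 1).factorial := by
    calc m.factorial = (Finset.univ : Finset (Equiv.Perm ι)).card := by
          rw [Finset.card_univ, Fintype.card_perm]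
      _ = ∑ ϖ : Equiv.Perm κ, (Finset.univ.filter fun σ => π σ = ϖ).card :=
          Finset.card_eq_sum_card_fiberwise (fun σ _ => by simp)
      _ ≤ (Finset.univ : Finset (Equiv.Perm κ)).card • (m - c + 1).factorial :=
          Finset.sum_le_card_nsmul _ _ _ (fun ϖ _ => hfib ϖ)
      _ = _ := by rw [Finset.card_univ, Fintype.card_perm, smul_eq_mul]
  have hceq : c = m := by
    by_contra hne
    have h1 : 1 ≤ m - c := by omega
    have := fact_lt hc h1
    rw [show c + (m - c) = m by omega] at this
    omega
  -- all members of the partitions have one element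
  have hone : ∀ σ b, (φ σ b).card = 1 := by
    intro σ b
    have h1 : ∑ b, (φ σ b).card = ∑ _b : κ, 1 := by
      rw [hsum σ, ← Finset.card_eq_sum_ones, Finset.card_univ]; exact hceq.symm
    exact ((Finset.sum_eq_sum_iff_of_le (fun b _ => hnonempty σ b)).1 h1.symm b
      (Finset.mem_univ b)).symm
  have hinj : Function.Injective π := by
    intro σ τ h
    ext1 i
    obtain ⟨b, hb⟩ := (hpart σ).2 i
    obtain ⟨j, hj⟩ := Finset.card_eq_one.1 (hone σ b)
    obtain ⟨h1, h3⟩ := hsame σ τ h b
    rw [← h1] at h3
    rw [hj, Finset.mem_singleton] at hb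
    subst hb
    rw [hj] at h3
    simpa using h3
  have hsurj : Function.Surjective π := by
    have hcard : Fintype.card (Equiv.Perm ι) = Fintype.card (Equiv.Perm κ) := by
      rw [Fintype.card_perm, Fintype.card_perm]; exact congrArg _ hceq.symm
    exact ((Fintype.bijective_iff_injective_and_card π).2 ⟨hinj, hcard⟩).2
  -- the table
  let q : κ → κ → F := fun a b => ∑ e : ι × ι, A e a b
  have hq : ∀ e (a b : κ), A e a b ≠ 0 → q a b = A e a b := by
    intro e a b he
    apply Finset.sum_eq_single_of_mem e (Finset.mem_univ e)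
    intro e' _ hee'
    by_contra he'
    apply hee'
    have h1 := hA.ent _ _ _ he
    have h3 := hA.ent _ _ _ he'
    rw [h1] at h3
    have h4 := mul_left_cancel₀ (hA.ne b) h3
    have h5 := hsep {e.1} {e.2} {e'.1} {e'.2} rfl rfl (by simpa using h4)
    rw [Finset.singleton_inj, Finset.singleton_inj] at h5
    exact (Prod.ext h5.1 h5.2).symm
  refine no_sign_table h2 (by omega : 3 ≤ Fintype.card κ) q hγ ?_
  intro ϖ
  obtain ⟨σ, rfl⟩ := hsurj ϖ
  rw [coef_det p (onPerm A σ) (hdet σ)]
  rw [Finset.sum_eq_single_of_mem (π σ) (Finset.mem_univ _)]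
  · rw [Finset.sum_eq_single_of_mem (φ σ) (Finset.mem_univ _)]
    · rw [if_pos (hpart σ)]
      congr 1
      apply Finset.prod_congr rfl
      intro b _
      obtain ⟨i, hi⟩ := Finset.card_eq_one.1 (hone σ b)
      have h1 := hne σ b
      rw [hi, rem_singleton] at h1 ⊢
      exact (hq _ _ _ h1).symm
    · intro ψ _ hψ
      by_cases h1 : IsPart ψ
      · rw [if_pos h1]
        by_contra h3
        apply hψ
        have h4 := right_ne_zero_of_mul h3
        rw [Finset.prod_ne_zero_iff] at h4
        funext b
        have h5 := rem_weight hA σ b _ _ (h4 b (Finset.mem_univ b))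
        rw [hw σ b] at h5
        exact (sep_perm hsep (mul_left_cancel₀ (hA.ne b) h5)).1.symm
      · rw [if_neg h1]
  · intro ϖ _ hϖ
    apply Finset.sum_eq_zero
    intro ψ _
    by_cases h1 : IsPart ψ
    · rw [if_pos h1]
      by_contra h3
      apply hϖ
      have h4 := right_ne_zero_of_mul h3
      rw [Finset.prod_ne_zero_iff] at h4
      obtain ⟨τ, rfl⟩ := hsurj ϖ
      have h6 : ∀ b, ψ b = φ τ b ∧ (ψ b).map σ.toEmbedding = (φ τ b).map τ.toEmbedding := by
        intro b
        have h5 := rem_weight hA σ b _ _ (h4 b (Finset.mem_univ b))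
        rw [hw τ b] at h5
        have := sep_perm hsep (mul_left_cancel₀ (hA.ne b) h5).symm
        exact this
      congr 1
      ext1 i
      obtain ⟨b, hb⟩ := (hpart τ).2 i
      obtain ⟨j, hj⟩ := Finset.card_eq_one.1 (hone τ b)
      obtain ⟨h7, h8⟩ := h6 b
      rw [h7, hj] at h8
      rw [hj, Finset.mem_singleton] at hb
      subst hb
      symm
      simpa using h8
    · rw [if_neg h1]

/-- The lower bound for graded matrices in normal form. -/
theorem bound_graded (h2 : (2 : F) ≠ 0) (hm : 3 ≤ Fintype.card ι) (hA : Graded p A t s wr wc)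
    (hsep : Separated t s) {γ : F} (hγ : γ ≠ 0)
    (hdet : ∀ σ : Equiv.Perm ι, (Mat p (onPerm A σ)).det =
      algebraMap F (Nil ι F) γ * epsS Finset.univ) :
    2 ^ (Fintype.card ι) - 1 ≤ Fintype.card I := by
  classical
  have h1 : Fintype.card {a // ¬ p a} < 2 := by
    by_contra h
    exact no_high_corank h2 hm hA hsep hγ hdet (by omega)
  have h3 : 0 < Fintype.card {a // ¬ p a} := by
    obtain ⟨π, φ, h4, _⟩ := exists_term p (onPerm A 1) hγ (hdet 1)
    have : Nonempty ι := Fintype.card_pos_iff.1 (by omega)
    obtain ⟨b, _⟩ := h4.2 (Classical.arbitrary ι)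
    exact Fintype.card_pos_iff.2 ⟨b⟩
  obtain ⟨b0, hb0⟩ := Fintype.card_eq_one_iff.1 (by omega : Fintype.card {a // ¬ p a} = 1)
  have h4 : ∀ σ : Equiv.Perm ι, ∃ a0, rem p (onPerm A σ) (b0 : I) Finset.univ a0 ≠ 0 := by
    intro σ
    obtain ⟨π, φ, h4, h5⟩ := exists_term p (onPerm A σ) hγ (hdet σ)
    have h6 : φ b0 = Finset.univ := by
      ext i
      simp only [Finset.mem_univ, iff_true]
      obtain ⟨b, hb⟩ := h4.2 i
      rwa [hb0 b] at hb
    exact ⟨_, h6 ▸ h5 b0⟩
  have h5 := bound_one hA hsep b0 h4
  have h6 : (Finset.univ.filter fun a => p a).card + Fintype.card {a // ¬ p a} =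
      Fintype.card I := by
    rw [Fintype.card_subtype, Finset.card_filter_add_card_filter_not, Finset.card_univ]
  have h7 : 2 ≤ 2 ^ Fintype.card ι := by
    calc 2 = 2 ^ 1 := rfl
      _ ≤ _ := Nat.pow_le_pow_right (by norm_num) (by omega)
  omega

end Pool.Agent.L5helper20.PD
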