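import Mathlib

/-!
A normal form for a linear map which preserves gradings.
-/

namespace Pool.Agent.L5helper20.PD

open Module

variable {F : Type*} [Field F] {V V' : Type*} [AddCommGroup V] [Module F V]
  [AddCommGroup V'] [Module F V']

/-- the coefficients of a homogeneous vector in a homogeneous basis -/
lemma weight_coeff {J : Type*} [Fintype J] {G : F → Submodule F V} (hG : iSupIndep G)
    (r : Basis J F V) (w : J → F) (hr : ∀ a, r a ∈ G (w a)) {μ : F} {v : V} (hv : v ∈ G μ)
    {a : J} (ha : r.repr v a ≠ 0) : w a = μ := by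
  classical
  by_contra hne
  have h1 : v = ∑ b with w b = w a, r.repr v b • r b + ∑ b with w b ≠ w a, r.repr v b • r b := by
    rw [Finset.sum_filter_add_sum_filter_not]
    exact (r.sum_repr v).symm
  have h2 : ∑ b with w b = w a, r.repr v b • r b = 0 := by
    have h3 : ∑ b with w b = w a, r.repr v b • r b ∈ G (w a) := by
      apply Submodule.sum_mem
      intro b hb
      rw [← (Finset.mem_filter.1 hb).2]
      exact Submodule.smul_mem _ _ (hr b)
    have h4 : ∑ b with w b = w a, r.repr v b • r b ∈ ⨆ j, ⨆ (_ : j ≠ w a), G j := by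
      have h5 : ∑ b with w b = w a, r.repr v b • r b =
          v - ∑ b with w b ≠ w a, r.repr v b • r b := by
        rw [eq_sub_iff_add_eq]; exact h1.symm
      rw [h5]
      apply Submodule.sub_mem
      · exact Submodule.mem_iSup_of_mem μ (Submodule.mem_iSup_of_mem (Ne.symm hne) hv)
      · apply Submodule.sum_mem
        intro b hb
        exact Submodule.smul_mem _ _ (Submodule.mem_iSup_of_mem (w b)
          (Submodule.mem_iSup_of_mem (Finset.mem_filter.1 hb).2 (hr b)))
    have h6 := (Submodule.disjoint_def.1 (hG (w a))) _ h3 h4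
    exact h6
  rw [Finset.sum_filter] at h2
  have h7 := Fintype.linearIndependent_iff.1 r.linearIndependent
    (fun b => if w b = w a then r.repr v b else 0) (by
      simpa [ite_smul] using h2) a
  simp only [if_true] at h7
  exact ha h7

/-- the kernel of a graded map is spanned by homogeneous vectors -/
lemma ker_le_span {G : F → Submodule F V} (hG : ⨆ j, G j = ⊤) {G' : F → Submodule F V'}
    (hG' : iSupIndep G') (f : V →ₗ[F] V') (hf : ∀ j, ∀ v ∈ G j, f v ∈ G' j) :
    LinearMap.ker f ≤ Submodule.span F {u | (∃ j, u ∈ G j) ∧ f u = 0} := by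
  classical
  intro v hv
  have h0 : v ∈ ⨆ j, G j := by rw [hG]; trivial
  obtain ⟨m, hm, rfl⟩ := (Submodule.mem_iSup_iff_exists_finsupp _ _).1 h0
  have h1 : ∀ j, f (m j) = 0 := by
    intro j
    have h2 : f (m j) ∈ G' j := hf j _ (hm j)
    have h3 : f (m j) ∈ ⨆ i, ⨆ (_ : i ≠ j), G' i := by
      by_cases hj : j ∈ m.support
      · have h4 : f (m j) = - ∑ i ∈ m.support.erase j, f (m i) := by
          rw [LinearMap.mem_ker, Finsupp.sum, map_sum, ← Finset.add_sum_erase _ _ hj] at hv
          exact eq_neg_of_add_eq_zero_left hv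
        rw [h4]
        apply Submodule.neg_mem
        apply Submodule.sum_mem
        intro i hi
        exact Submodule.mem_iSup_of_mem i (Submodule.mem_iSup_of_mem (Finset.ne_of_mem_erase hi)
          (hf i _ (hm i)))
      · rw [Finsupp.notMem_support_iff] at hj
        rw [hj, map_zero]
        exact Submodule.zero_mem _
    exact (Submodule.disjoint_def.1 (hG' j)) _ h2 h3
  rw [Finsupp.sum]
  apply Submodule.sum_mem
  intro j _
  exact Submodule.subset_span ⟨⟨j, hm j⟩, h1 j⟩

/-- The normal form. -/
theorem normal_form [FiniteDimensional F V] [FiniteDimensional F V'] {J : Type*} [Fintype J]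
    (hV : finrank F V = Fintype.card J) (hV' : finrank F V' = Fintype.card J)
    {G : F → Submodule F V} (hG1 : iSupIndep G) (hG : ⨆ j, G j = ⊤)
    {G' : F → Submodule F V'} (hG'1 : iSupIndep G') (hG' : ⨆ j, G' j = ⊤)
    (f : V →ₗ[F] V') (hf : ∀ j, ∀ v ∈ G j, f v ∈ G' j) :
    ∃ (d : Basis J F V) (r : Basis J F V') (p : J → Prop) (wc wr : J → F),
      (∀ b, d b ∈ G (wc b)) ∧ (∀ a, r a ∈ G' (wr a)) ∧ (∀ a, p a → f (d a) = r a) ∧
      (∀ b, ¬ p b → f (d b) = 0) ∧ ∀ a, p a → wr a = wc a := by
  classical
  set K : Set V := {u | (∃ j, u ∈ G j) ∧ f u = 0} with hK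
  set H : Set V := {u | ∃ j, u ∈ G j} with hH
  set H' : Set V' := {u | ∃ j, u ∈ G' j} with hH'
  have spanH : Submodule.span F H = ⊤ := by
    rw [eq_top_iff, ← hG, iSup_le_iff]
    intro j v hv
    exact Submodule.subset_span ⟨j, hv⟩
  have spanH' : Submodule.span F H' = ⊤ := by
    rw [eq_top_iff, ← hG', iSup_le_iff]
    intro j v hv
    exact Submodule.subset_span ⟨j, hv⟩
  have h0 : LinearIndepOn F id (∅ : Set V) := linearIndepOn_empty F id
  set B0 := h0.extend (Set.empty_subset K) with hB0
  have hB0i : LinearIndepOn F id B0 := h0.linearIndepOn_extend _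
  have hB0K : B0 ⊆ K := h0.extend_subset _
  have hB0H : B0 ⊆ H := fun x hx => (hB0K hx).1
  have hB0s : Submodule.span F B0 = Submodule.span F K := h0.span_extend_eq_span _
  set B := hB0i.extend hB0H with hB
  have hBi : LinearIndepOn F id B := hB0i.linearIndepOn_extend _
  have hBH : B ⊆ H := hB0i.extend_subset _
  have hB0B : B0 ⊆ B := hB0i.subset_extend _
  have hBs : Submodule.span F B = ⊤ := by rw [hB0i.span_extend_eq_span, spanH]
  let dB : Basis B F V := Basis.mk hBi (by
    have : Set.range (fun x : B => id (x : V)) = B := by simp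
    rw [this, hBs])
  have hdB : ∀ x, dB x = x := fun x => by simp [dB]
  have : Finite B := Module.Finite.finite_basis dB
  have : Fintype B := Fintype.ofFinite B
  have hBcard : Fintype.card B = Fintype.card J := by
    rw [← hV, Module.finrank_eq_card_basis dB]
  -- the images of the vectors outside of the kernel
  have hdisj : Disjoint (Submodule.span F (B \ B0)) (LinearMap.ker f) := by
    have h1 := (hBi.linearIndependent).disjoint_span_image
      (s := {x : B | (x : V) ∉ B0}) (t := {x : B | (x : V) ∈ B0}) (by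
        rw [Set.disjoint_left]; intro x hx hx'; exact hx hx')
    have e1 : (fun x : B => id (x : V)) '' {x : B | (x : V) ∉ B0} = B \ B0 := by
      ext x; constructor
      · rintro ⟨y, hy, rfl⟩; exact ⟨y.2, hy⟩
      · rintro ⟨hx, hx'⟩; exact ⟨⟨x, hx⟩, hx', rfl⟩
    have e2 : (fun x : B => id (x : V)) '' {x : B | (x : V) ∈ B0} = B0 := by
      ext x; constructor
      · rintro ⟨y, hy, rfl⟩; exact hy
      · intro hx; exact ⟨⟨x, hB0B hx⟩, hx, rfl⟩
    rw [e1, e2, hB0s] at h1
    exact h1.mono_right (ker_le_span hG hG'1 f hf)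
  have hli : LinearIndepOn F id (B \ B0) := hBi.mono Set.sdiff_subset
  have hli2 : LinearIndependent F (fun x : (B \ B0 : Set V) => f x) := by
    have := hli.linearIndependent.map (f := f) (by
      have : Set.range (fun x : (B \ B0 : Set V) => id (x : V)) = B \ B0 := by
        simp only [id_eq]; exact Subtype.range_coe
      rw [this]; exact hdisj)
    exact this
  have hC0i : LinearIndepOn F id (f '' (B \ B0)) := by
    have := LinearIndependent.linearIndepOn_id hli2
    have e : Set.range (fun x : (B \ B0 : Set V) => f x) = f '' (B \ B0) := by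
      ext x; simp
    rwa [e] at this
  have hC0H : f '' (B \ B0) ⊆ H' := by
    rintro _ ⟨x, hx, rfl⟩
    obtain ⟨j, hj⟩ := hBH hx.1
    exact ⟨j, hf j x hj⟩
  set C := hC0i.extend hC0H with hC
  have hCi : LinearIndepOn F id C := hC0i.linearIndepOn_extend _
  have hCH : C ⊆ H' := hC0i.extend_subset _
  have hC0C : f '' (B \ B0) ⊆ C := hC0i.subset_extend _
  have hCs : Submodule.span F C = ⊤ := by rw [hC0i.span_extend_eq_span, spanH']
  let rC : Basis C F V' := Basis.mk hCi (by
    have : Set.range (fun x : C => id (x : V')) = C := by simp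
    rw [this, hCs])
  have hrC : ∀ x, rC x = x := fun x => by simp [rC]
  have : Finite C := Module.Finite.finite_basis rC
  have : Fintype C := Fintype.ofFinite C
  have hCcard : Fintype.card C = Fintype.card J := by
    rw [← hV', Module.finrank_eq_card_basis rC]
  -- the bijection
  obtain ⟨g, hg⟩ := Finset.exists_equiv_extend_of_card_eq (α := B) (β := V') (t := C.toFinset)
    (by rw [Set.toFinset_card, hBcard, hCcard])
    (s := Finset.univ.filter fun x : B => (x : V) ∉ B0) (f := fun x => f x) (by
      intro y hy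
      rw [Finset.mem_image] at hy
      obtain ⟨x, hx, rfl⟩ := hy
      rw [Set.mem_toFinset]
      exact hC0C ⟨x, ⟨x.2, (Finset.mem_filter.1 hx).2⟩, rfl⟩) (by
      intro x hx y hy hxy
      have hx' : (x : V) ∉ B0 := by simpa using hx
      have hy' : (y : V) ∉ B0 := by simpa using hy
      have := hli2.injective (a₁ := ⟨x, x.2, hx'⟩) (a₂ := ⟨y, y.2, hy'⟩) hxy
      exact Subtype.ext (congrArg (fun z : (B \ B0 : Set V) => (z : V)) this))
  let g' : B ≃ C := g.trans (Equiv.subtypeEquivRight fun x => Set.mem_toFinset)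
  have hg' : ∀ x : B, (x : V) ∉ B0 → (g' x : V') = f x := by
    intro x hx
    exact hg x (by simpa using hx)
  let eJ : B ≃ J := Fintype.equivOfCardEq hBcard
  have hwB : ∀ x : B, ∃ j, (x : V) ∈ G j := fun x => hBH x.2
  choose wB hwB using hwB
  have hwC : ∀ x : C, ∃ j, (x : V') ∈ G' j := fun x => hCH x.2
  choose wC hwC using hwC
  refine ⟨dB.reindex eJ, (rC.reindex g'.symm).reindex eJ, fun a => ((eJ.symm a : B) : V) ∉ B0,
    fun b => wB (eJ.symm b),
    fun a => if ((eJ.symm a : B) : V) ∉ B0 then wB (eJ.symm a) else wC (g' (eJ.symm a)),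
    ?_, ?_, ?_, ?_, ?_⟩
  · intro b
    rw [Basis.reindex_apply, hdB]
    exact hwB _
  · intro a
    rw [Basis.reindex_apply, Basis.reindex_apply, hrC, Equiv.symm_symm]
    beta_reduce
    by_cases ha : ((eJ.symm a : B) : V) ∉ B0
    · rw [if_pos ha, hg' _ ha]
      exact hf _ _ (hwB _)
    · rw [if_neg ha]
      exact hwC _
  · intro a ha
    rw [Basis.reindex_apply, Basis.reindex_apply, Basis.reindex_apply, hdB, hrC, Equiv.symm_symm,
      hg' _ ha]
  · intro b hb
    rw [Basis.reindex_apply, hdB]
    exact (hB0K (not_not.1 hb)).2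
  · intro a ha
    beta_reduce
    rw [if_pos ha]

end Pool.Agent.L5helper20.PD
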