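import Mathlib

/-!
The algebra `F[y_i : i ∈ ι] / (y_i ^ 2)` and the expansions in the square-free monomials.
-/

set_option linter.unusedSectionVars false

namespace Pool.Agent.L5helper20.PD

open MvPolynomial

variable {ι : Type*} [Fintype ι] [DecidableEq ι] {F : Type*} [Field F]

/-- the ideal generated by the squares of the variables -/
noncomputable def sqIdeal (ι : Type*) (F : Type*) [Field F] : Ideal (MvPolynomial ι F) :=
  Ideal.span (Set.range fun i : ι => (X i : MvPolynomial ι F) ^ 2)

/-- the algebra `F[y] / (y_i ^ 2)` -/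
abbrev Nil (ι : Type*) (F : Type*) [Field F] := MvPolynomial ι F ⧸ sqIdeal ι F

/-- the class of the variable `y_i` -/
noncomputable def eps (i : ι) : Nil ι F := Ideal.Quotient.mk _ (X i)

/-- the class of a square-free monomial -/
noncomputable def epsS (S : Finset ι) : Nil ι F := ∏ i ∈ S, eps i

lemma eps_mul_self (i : ι) : (eps i : Nil ι F) * eps i = 0 := by
  unfold eps
  rw [← map_mul, ← sq, Ideal.Quotient.eq_zero_iff_mem]
  exact Ideal.subset_span ⟨i, rfl⟩

lemma epsS_empty : (epsS ∅ : Nil ι F) = 1 := by simp [epsS]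

lemma epsS_insert {S : Finset ι} {i : ι} (h : i ∉ S) :
    (eps i : Nil ι F) * epsS S = epsS (insert i S) := by
  unfold epsS; rw [Finset.prod_insert h]

lemma eps_mul_epsS {S : Finset ι} {i : ι} (h : i ∈ S) :
    (eps i : Nil ι F) * epsS S = 0 := by
  unfold epsS
  rw [← Finset.mul_prod_erase S _ h, ← mul_assoc, eps_mul_self, zero_mul]

lemma epsS_mul_of_disjoint {S T : Finset ι} (h : Disjoint S T) :
    (epsS S : Nil ι F) * epsS T = epsS (S ∪ T) := by
  unfold epsS; rw [Finset.prod_union h]

lemma epsS_mul_of_not_disjoint {S T : Finset ι} (h : ¬ Disjoint S T) :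
    (epsS S : Nil ι F) * epsS T = 0 := by
  obtain ⟨i, hS, hT⟩ := Finset.not_disjoint_iff.1 h
  unfold epsS
  rw [← Finset.mul_prod_erase S _ hS, ← Finset.mul_prod_erase T _ hT]
  calc _ = (eps i * eps i) * ((∏ x ∈ S.erase i, eps x) * ∏ x ∈ T.erase i, (eps x : Nil ι F)) := by
        ring
    _ = 0 := by rw [eps_mul_self, zero_mul]

omit [Fintype ι] [DecidableEq ι] in
lemma coeff_eq_zero_of_mem {f : MvPolynomial ι F} (hf : f ∈ sqIdeal ι F) {v : ι →₀ ℕ}
    (hv : ∀ i, v i ≤ 1) : f.coeff v = 0 := by
  by_contra h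
  have h1 : sqIdeal ι F = Ideal.span ((fun s => monomial s (1 : F)) ''
      (Set.range fun i : ι => Finsupp.single i 2)) := by
    unfold sqIdeal
    congr 1
    ext x
    constructor
    · rintro ⟨i, rfl⟩
      exact ⟨_, ⟨i, rfl⟩, by simp [X_pow_eq_monomial]⟩
    · rintro ⟨_, ⟨i, rfl⟩, rfl⟩
      exact ⟨i, by simp [X_pow_eq_monomial]⟩
  rw [h1, mem_ideal_span_monomial_image] at hf
  obtain ⟨s, ⟨i, rfl⟩, hs⟩ := hf v (by rwa [mem_support_iff])
  have := hs i
  simp at this
  have := hv i
  omega

/-- the exponent of the square-free monomial of `S` -/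
noncomputable def expo (S : Finset ι) : ι →₀ ℕ :=
  Finsupp.equivFunOnFinite.symm fun i => if i ∈ S then 1 else 0

lemma expo_apply (S : Finset ι) (i : ι) : expo S i = if i ∈ S then 1 else 0 := rfl

lemma expo_inj {S T : Finset ι} (h : expo S = expo T) : S = T := by
  ext i
  have := DFunLike.congr_fun h i
  simp only [expo_apply] at this
  by_cases h1 : i ∈ S <;> by_cases h2 : i ∈ T <;> simp_all

/-- the coefficient at a square-free monomial, as a linear map on the quotient -/
noncomputable def coef (S : Finset ι) : Nil ι F →ₗ[F] F :=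
  Submodule.liftQ ((sqIdeal ι F).restrictScalars F) (MvPolynomial.lcoeff F (expo S))
    (by
      intro f hf
      rw [LinearMap.mem_ker]
      exact coeff_eq_zero_of_mem hf (fun i => by rw [expo_apply]; split_ifs <;> simp))

lemma coef_mk (S : Finset ι) (f : MvPolynomial ι F) :
    coef S (Ideal.Quotient.mk (sqIdeal ι F) f) = f.coeff (expo S) := rfl

lemma epsS_eq_mk (S : Finset ι) :
    (epsS S : Nil ι F) = Ideal.Quotient.mk _ (monomial (expo S) 1) := by
  unfold epsS eps
  rw [← map_prod]
  congr 1
  rw [MvPolynomial.monomial_eq, C_1, one_mul, Finsupp.prod_fintype _ _ (by simp)]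
  rw [← Finset.prod_subset (Finset.subset_univ S)]
  · apply Finset.prod_congr rfl
    intro i hi
    rw [expo_apply, if_pos hi, pow_one]
  · intro i _ hi
    rw [expo_apply, if_neg hi, pow_zero]

lemma coef_epsS (S T : Finset ι) : coef S (epsS T : Nil ι F) = if T = S then 1 else 0 := by
  rw [epsS_eq_mk, coef_mk, coeff_monomial]
  by_cases h : T = S
  · simp [h]
  · rw [if_neg h, if_neg (fun h' => h (expo_inj h'))]

/-- the augmentation `y_i ↦ 0` -/
noncomputable def aug : Nil ι F →+* F :=
  Ideal.Quotient.lift (sqIdeal ι F) (constantCoeff : MvPolynomial ι F →+* F) (by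
    intro f hf
    exact coeff_eq_zero_of_mem hf (v := 0) (by simp))

lemma aug_mk (f : MvPolynomial ι F) : aug (Ideal.Quotient.mk (sqIdeal ι F) f) =
    constantCoeff f := rfl

lemma aug_eps (i : ι) : aug (eps i : Nil ι F) = 0 := by
  rw [eps, aug_mk]; simp

lemma aug_algebraMap (c : F) : aug (algebraMap F (Nil ι F) c) = c := by
  have : algebraMap F (Nil ι F) c = Ideal.Quotient.mk (sqIdeal ι F) (C c) := rfl
  rw [this, aug_mk]; simp

lemma nilpotent_sub_aug (x : Nil ι F) : IsNilpotent (x - algebraMap F (Nil ι F) (aug x)) := by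
  obtain ⟨f, rfl⟩ := Ideal.Quotient.mk_surjective x
  induction f using MvPolynomial.induction_on with
  | C a =>
    have : algebraMap F (Nil ι F) a = Ideal.Quotient.mk (sqIdeal ι F) (C a) := rfl
    rw [← this, aug_algebraMap, sub_self]
    exact IsNilpotent.zero
  | add p q hp hq =>
    rw [map_add, map_add, map_add, add_sub_add_comm]
    exact Commute.isNilpotent_add (Commute.all _ _) hp hq
  | mul_X p i _ =>
    have h0 : aug (Ideal.Quotient.mk (sqIdeal ι F) (p * X i)) = 0 := by
      rw [aug_mk]; simp
    rw [h0, map_zero, sub_zero, map_mul]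
    refine ⟨2, ?_⟩
    have : (Ideal.Quotient.mk (sqIdeal ι F) (X i)) = eps i := rfl
    rw [this, mul_pow, sq (eps i), eps_mul_self, mul_zero]

lemma exists_inv {u : Nil ι F} (hu : aug u = 1) : ∃ u' : Nil ι F, u * u' = 1 ∧ aug u' = 1 := by
  have h1 : IsUnit u := by
    have := (nilpotent_sub_aug u).isUnit_one_add
    rw [hu, map_one] at this
    simpa using this
  obtain ⟨u', hu'⟩ := h1.exists_right_inv
  refine ⟨u', hu', ?_⟩
  have := congrArg aug hu'
  rw [map_mul, hu, one_mul, map_one] at this
  exact this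

lemma mul_epsS_univ (x : Nil ι F) :
    x * epsS Finset.univ = algebraMap F (Nil ι F) (aug x) * epsS Finset.univ := by
  obtain ⟨f, rfl⟩ := Ideal.Quotient.mk_surjective x
  induction f using MvPolynomial.induction_on with
  | C a =>
    have : algebraMap F (Nil ι F) a = Ideal.Quotient.mk (sqIdeal ι F) (C a) := rfl
    rw [← this, aug_algebraMap]
  | add p q hp hq =>
    rw [map_add, map_add, map_add, add_mul, hp, hq]
    ring
  | mul_X p i _ =>
    have h0 : aug (Ideal.Quotient.mk (sqIdeal ι F) (p * X i)) = 0 := by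
      rw [aug_mk]; simp
    rw [h0, map_zero, zero_mul, map_mul]
    have : (Ideal.Quotient.mk (sqIdeal ι F) (X i)) = eps i := rfl
    rw [this, mul_assoc, eps_mul_epsS (Finset.mem_univ i), mul_zero]

/-- If `u` has augmentation `1` and `u * x = γ y_1 ⋯ y_m` then `x = γ y_1 ⋯ y_m`. -/
lemma eq_of_unit_mul {u x : Nil ι F} (hu : aug u = 1) {γ : F}
    (h : u * x = algebraMap F (Nil ι F) γ * epsS Finset.univ) :
    x = algebraMap F (Nil ι F) γ * epsS Finset.univ := by
  obtain ⟨u', h1, h2⟩ := exists_inv hu
  calc x = u' * (u * x) := by rw [← mul_assoc, mul_comm u' u, h1, one_mul]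
    _ = algebraMap F (Nil ι F) γ * (u' * epsS Finset.univ) := by rw [h]; ring
    _ = _ := by rw [mul_epsS_univ, h2, map_one, one_mul]

open Classical in
/-- the product of square-free monomials -/
lemma prod_epsS {κ : Type*} (s : Finset κ) (φ : κ → Finset ι) :
    (∏ b ∈ s, (epsS (φ b) : Nil ι F)) =
      if (s : Set κ).PairwiseDisjoint φ then epsS (s.biUnion φ) else 0 := by
  induction s using Finset.induction_on with
  | empty => simp [epsS_empty]
  | insert a s ha ih =>
    rw [Finset.prod_insert ha, ih, Finset.biUnion_insert]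
    by_cases h : (s : Set κ).PairwiseDisjoint φ
    · rw [if_pos h]
      by_cases h2 : Disjoint (φ a) (s.biUnion φ)
      · rw [epsS_mul_of_disjoint h2, if_pos]
        rw [Finset.coe_insert, Set.pairwiseDisjoint_insert_of_notMem (by simpa using ha)]
        refine ⟨h, fun j hj => ?_⟩
        rw [Finset.disjoint_biUnion_right] at h2
        exact h2 j hj
      · rw [epsS_mul_of_not_disjoint h2, if_neg]
        intro h3
        apply h2
        rw [Finset.coe_insert, Set.pairwiseDisjoint_insert_of_notMem (by simpa using ha)] at h3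
        rw [Finset.disjoint_biUnion_right]
        exact h3.2
    · rw [if_neg h, mul_zero, if_neg]
      intro h3
      exact h (h3.subset (by simp))

end Pool.Agent.L5helper20.PD
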