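import Pool.Agent.L5helper20.PD.Main
import Pool.Agent.L5helper20.PD.NF

/-!
Determinantal representations of the permanent with a diagonal symmetry.
-/

set_option linter.unusedSectionVars false

namespace Pool.Agent.L5helper20.PD

open MvPolynomial Finset Module

section
variable {F : Type*} [Field F] {V V' : Type*} [AddCommGroup V] [Module F V]
  [AddCommGroup V'] [Module F V']

/-- a map which is equivariant up to a scalar maps generalized eigenspaces to such spaces -/
lemma map_genEigenspace (q : End F V) (pp : End F V') (f : V →ₗ[F] V') (τ : F)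
    (h : pp ∘ₗ f = τ • (f ∘ₗ q)) (l : F) (v : V) (hv : v ∈ q.maxGenEigenspace l) :
    f v ∈ pp.maxGenEigenspace (τ * l) := by
  rw [End.mem_maxGenEigenspace] at hv ⊢
  obtain ⟨k, hk⟩ := hv
  refine ⟨k, ?_⟩
  have key : ∀ (k : ℕ) (w : V), ((pp - (τ * l) • (1 : End F V')) ^ k) (f w) =
      τ ^ k • f (((q - l • (1 : End F V)) ^ k) w) := by
    intro k
    induction k with
    | zero => intro w; simp
    | succ k ih =>
      intro w
      rw [pow_succ, End.mul_apply, pow_succ (q - l • (1 : End F V)), End.mul_apply]
      have h1 : (pp - (τ * l) • (1 : End F V')) (f w) =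
          τ • f ((q - l • (1 : End F V)) w) := by
        have h2 : pp (f w) = τ • f (q w) := by
          have := LinearMap.congr_fun h w
          simpa using this
        simp only [LinearMap.sub_apply, LinearMap.smul_apply, End.one_apply, map_sub, map_smul,
          smul_sub, h2, smul_smul]
      rw [h1, map_smul, ih, smul_smul]
      congr 1
      ring
  rw [key, hk, map_zero, smul_zero]

end

variable {ι : Type*} [Fintype ι] [DecidableEq ι] {F : Type*} [Field F]
variable {J : Type*} [Fintype J] [DecidableEq J]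

/-- the matrix of affine linear forms `Λ + ∑ x_e A_e` -/
noncomputable def affMat (L : Matrix J J F) (A : ι × ι → Matrix J J F) :
    Matrix J J (MvPolynomial (ι × ι) F) :=
  fun a b => C (L a b) + ∑ e, X e * C (A e a b)

/-- the permanent of the generic matrix -/
noncomputable def permP (ι : Type*) [Fintype ι] [DecidableEq ι] (F : Type*) [Field F] :
    MvPolynomial (ι × ι) F :=
  (Matrix.of fun i j => (X (i, j) : MvPolynomial (ι × ι) F)).permanent

/-- restriction to the graph of a permutation -/
noncomputable def psi (σ : Equiv.Perm ι) : MvPolynomial (ι × ι) F →ₐ[F] Nil ι F :=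
  aeval fun e => if e.1 = σ e.2 then eps e.2 else 0

lemma psi_perm (σ : Equiv.Perm ι) : psi σ (permP ι F) = epsS Finset.univ := by
  unfold permP Matrix.permanent
  rw [map_sum, Finset.sum_eq_single_of_mem σ (Finset.mem_univ σ)]
  · rw [map_prod]
    unfold epsS
    apply Finset.prod_congr rfl
    intro i _
    simp [psi]
  · intro τ _ hτ
    rw [map_prod]
    have : ∃ i, τ i ≠ σ i := by
      by_contra h
      push Not at h
      exact hτ (Equiv.ext h)
    obtain ⟨i, hi⟩ := this
    apply Finset.prod_eq_zero (Finset.mem_univ i)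
    simp [psi, hi]

lemma psi_affMat (σ : Equiv.Perm ι) (L : Matrix J J F) (A : ι × ι → Matrix J J F) (a b : J) :
    psi σ (affMat L A a b) = algebraMap F (Nil ι F) (L a b) +
      ∑ i, eps i * algebraMap F (Nil ι F) (A (σ i, i) a b) := by
  unfold affMat
  rw [map_add, map_sum]
  congr 1
  · exact (psi σ).commutes _
  · rw [Fintype.sum_prod_type_right]
    apply Finset.sum_congr rfl
    intro i _
    rw [Finset.sum_eq_single_of_mem (σ i) (Finset.mem_univ _)]
    · rw [map_mul]
      congr 1
      · simp [psi]
      · exact (psi σ).commutes _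
    · intro j _ hj
      rw [map_mul]
      simp [psi, hj]

/-- conjugation of a matrix of affine forms -/
lemma conj_aff {R : Type*} [CommRing R] (g : F →+* R) (X0 Y0 L : Matrix J J F)
    (A : ι → Matrix J J F) (ε : ι → R) :
    X0.map g * (Matrix.of fun a b => g (L a b) + ∑ i, ε i * g (A i a b)) * Y0.map g =
      Matrix.of fun a b => g ((X0 * L * Y0) a b) + ∑ i, ε i * g ((X0 * A i * Y0) a b) := by
  have e1 : (Matrix.of fun a b => g (L a b) + ∑ i, ε i * g (A i a b) : Matrix J J R) =
      L.map g + ∑ i, ε i • (A i).map g := by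
    ext a b
    rw [Matrix.of_apply, Matrix.add_apply, Matrix.sum_apply]
    rfl
  have e2 : ∀ M : Matrix J J F, X0.map g * M.map g * Y0.map g = (X0 * M * Y0).map g := by
    intro M
    rw [Matrix.map_mul, Matrix.map_mul]
  rw [e1, Matrix.mul_add, Matrix.add_mul, Finset.mul_sum, Finset.sum_mul]
  simp only [Matrix.mul_smul, Matrix.smul_mul, e2]
  ext a b
  rw [Matrix.of_apply, Matrix.add_apply, Matrix.sum_apply]
  rfl

/-- **The lower bound, equivariance under one diagonal matrix.** -/
theorem rep_bound [IsAlgClosed F] (h2 : (2 : F) ≠ 0) (hm : 3 ≤ Fintype.card ι)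
    (L : Matrix J J F) (A : ι × ι → Matrix J J F) (hdet : (affMat L A).det = permP ι F)
    (t s : ι → F) (hsep : Separated t s)
    (P Q : Matrix J J F) (hP : P.det ≠ 0) (hQ : Q.det ≠ 0) (hL : P * L * Q = L)
    (hA : ∀ e, P * A e * Q = (t e.1 * s e.2) • A e) :
    2 ^ (Fintype.card ι) - 1 ≤ Fintype.card J := by
  classical
  have hQu : IsUnit Q.det := Ne.isUnit hQ
  have hPu : IsUnit P.det := Ne.isUnit hP
  set q : End F (J → F) := Matrix.toLin' Q⁻¹ with hq
  set pp : End F (J → F) := Matrix.toLin' P with hpp
  have hcomm : ∀ (M : Matrix J J F) (τ : F), P * M * Q = τ • M →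
      pp ∘ₗ (Matrix.toLin' M) = τ • ((Matrix.toLin' M) ∘ₗ q) := by
    intro M τ h
    rw [hpp, hq, ← Matrix.toLin'_mul, ← Matrix.toLin'_mul, ← map_smul, ← Matrix.smul_mul, ← h,
      Matrix.mul_assoc (P * M), Matrix.mul_nonsing_inv Q hQu, Matrix.mul_one]
  set f : (J → F) →ₗ[F] (J → F) := Matrix.toLin' L with hf
  have hf1 : ∀ j, ∀ v ∈ q.maxGenEigenspace j, f v ∈ pp.maxGenEigenspace j := by
    intro j v hv
    have := map_genEigenspace q pp f 1 (hcomm L 1 (by rw [one_smul]; exact hL)) j v hv
    rwa [one_mul] at this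
  obtain ⟨d, r, p, wc, wr, h1, h3, h4, h5, h6⟩ := normal_form (J := J)
    (by simp) (by simp) q.independent_maxGenEigenspace (End.iSup_maxGenEigenspace_eq_top q)
    pp.independent_maxGenEigenspace (End.iSup_maxGenEigenspace_eq_top pp) f hf1
  set X0 : Matrix J J F := r.toMatrix (Pi.basisFun F J) with hX0
  set Y0 : Matrix J J F := (Pi.basisFun F J).toMatrix d with hY0
  have hX0d : X0.det ≠ 0 := by
    have := (r.isUnit_det (Pi.basisFun F J))
    rw [Module.Basis.det_apply] at this
    exact this.ne_zero
  have hY0d : Y0.det ≠ 0 := by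
    have := ((Pi.basisFun F J).isUnit_det d)
    rw [Module.Basis.det_apply] at this
    exact this.ne_zero
  have hconj : ∀ M : Matrix J J F, X0 * M * Y0 = LinearMap.toMatrix d r (Matrix.toLin' M) := by
    intro M
    rw [← basis_toMatrix_mul_linearMap_toMatrix_mul_basis_toMatrix (b' := Pi.basisFun F J)
      (c' := Pi.basisFun F J)]
    congr 2
    exact (LinearMap.toMatrix'_toLin' M).symm
  set B : ι × ι → Matrix J J F := fun e => X0 * A e * Y0 with hB
  have hgr : Graded p B t s wr wc := by
    refine ⟨?_, h6, ?_⟩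
    · intro e a b hab
      rw [hB] at hab
      simp only [hconj, LinearMap.toMatrix_apply] at hab
      have h7 := map_genEigenspace q pp (Matrix.toLin' (A e)) _ (hcomm (A e) _ (hA e)) _ _ (h1 b)
      have := weight_coeff pp.independent_maxGenEigenspace r wr h3 h7 hab
      rw [this, mul_comm]
    · intro a ha
      have h7 := h1 a
      rw [ha, End.mem_maxGenEigenspace] at h7
      obtain ⟨k, hk⟩ := h7
      rw [zero_smul, sub_zero, hq, ← Matrix.toLin'_pow, Matrix.toLin'_apply] at hk
      have h8 : (Q⁻¹ ^ k).det ≠ 0 := by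
        rw [Matrix.det_pow]
        apply pow_ne_zero
        intro h
        have h10 : (Q * Q⁻¹).det = 1 := by rw [Matrix.mul_nonsing_inv Q hQu, Matrix.det_one]
        rw [Matrix.det_mul, h, mul_zero] at h10
        exact zero_ne_one h10
      have h9 := Matrix.eq_zero_of_mulVec_eq_zero h8 hk
      exact d.ne_zero a h9
  refine bound_graded h2 hm hgr hsep (γ := X0.det * Y0.det) (mul_ne_zero hX0d hY0d) ?_
  intro σ
  have h7 : Mat p (onPerm B σ) =
      X0.map (algebraMap F (Nil ι F)) * (affMat L A).map (psi σ) *
        Y0.map (algebraMap F (Nil ι F)) := by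
    have e1 : (affMat L A).map (psi σ) = Matrix.of fun a b => algebraMap F (Nil ι F) (L a b) +
        ∑ i, eps i * algebraMap F (Nil ι F) (A (σ i, i) a b) := by
      ext a b
      rw [Matrix.map_apply, psi_affMat]
      rfl
    rw [e1, conj_aff (algebraMap F (Nil ι F)) X0 Y0 L (fun i => A (σ i, i)) eps]
    ext a b
    rw [Matrix.of_apply, Mat]
    congr 1
    rw [hconj, LinearMap.toMatrix_apply]
    congr 1
    by_cases hb : p b
    · rw [show (Matrix.toLin' L) (d b) = r b from h4 b hb, Basis.repr_self, Finsupp.single_apply]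
      by_cases hab : a = b
      · subst hab; simp [hb]
      · rw [if_neg (fun h => hab h.1), if_neg (fun h => hab h.symm)]
    · rw [show (Matrix.toLin' L) (d b) = 0 from h5 b hb, map_zero]
      rw [if_neg]
      · rfl
      · rintro ⟨rfl, h⟩; exact hb h
  rw [h7, Matrix.det_mul, Matrix.det_mul]
  have e3 : ((affMat L A).map (psi σ)).det = epsS Finset.univ := by
    rw [← psi_perm (F := F) σ, ← hdet]
    exact (AlgHom.map_det (psi (F := F) σ) (affMat L A)).symm
  rw [e3]
  have e4 : ∀ M : Matrix J J F, (M.map (algebraMap F (Nil ι F))).det =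
      algebraMap F (Nil ι F) M.det := by
    intro M
    exact (RingHom.map_det (algebraMap F (Nil ι F)) M).symm
  rw [e4, e4, map_mul]
  ring

end Pool.Agent.L5helper20.PD
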